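import Pool.Agent.U753.MG.Stm

/-!
# Project MG: a further statement (area laws with local boundary terms)
-/

set_option autoImplicit false

open scoped BigOperators

namespace Pool.Agent.U753.MG

open Pool.Agent.TH235.PP (Site)

/-- A function of the regions of the torus which is a sum of local terms: `g x` depends only on the
part of the region in the box of side `2 r + 1` around `x`. -/
def locf {L : ℕ} [NeZero L] (g : Site L → Finset (Site L) → ℝ) (r : ℕ) (A : Finset (Site L)) : ℝ :=
  ∑ x ∈ A, g x (A ∩ near r x)

/-- AR. Sums of local terms are Markovian. -/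
def StmArea : Prop := ∀ (L : ℕ) [NeZero L] (b r : ℕ), 2 * r ≤ b →
  ∀ (g : Site L → Finset (Site L) → ℝ) (v : Site L) (B : Finset (Site L)), v ∉ B →
  locf g r (insert v (B ∩ near b v)) + locf g r B =
    locf g r (B ∩ near b v) + locf g r (insert v B)

end Pool.Agent.U753.MG
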