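import Pool.Agent.U753.MG.Gen
import Pool.Agent.U753.MG.Stm2
import Pool.Agent.Results.MP_953b23_mp.OverlapBoosting

/-!
# Project MG: families
-/

set_option autoImplicit false

open scoped BigOperators Matrix InnerProductSpace

noncomputable section

namespace Pool.Agent.U753.MG

open Pool.Agent.TH235.PP Pool.Agent.Results.MP_953b23_mp.OverlapBoosting

/-- For all large `L`, all `b` and some order of the sites (depending on `L` and `b`) the sum of the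
conditional mutual informations `I(v : Q | P)` is at most `L ^ p exp (-c b ^ (1 / j))`. -/
def MarkovDecay {d : ℕ} (Ψ : ∀ L : ℕ, (Site L → Fin d) → ℂ) (j : ℕ) : Prop :=
  ∃ (p : ℕ) (c : ℝ) (L₀ : ℕ), 0 < c ∧ ∀ (L : ℕ) [NeZero L], L₀ ≤ L →
    ∀ b : ℕ, 1 ≤ b → 2 * b + 1 ≤ L → ∃ σ : Site L → ℕ, Function.Injective σ ∧
      ∑ v, cmiO σ (Ψ L) b v ≤ (L : ℝ) ^ p * Real.exp (-(c * (b : ℝ) ^ (1 / (j : ℝ))))

/-- For all large `L`, for some `b` of order `(log L) ^ j` and some order of the sites, the sum of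
the conditional mutual informations `I(v : Q | P)` is of order `(log L) ^ i`. -/
def MarkovTotal {d : ℕ} (Ψ : ∀ L : ℕ, (Site L → Fin d) → ℂ) (j i : ℕ) (B : ℝ) : Prop :=
  ∃ L₀ : ℕ, ∀ (L : ℕ) [NeZero L], L₀ ≤ L →
    ∃ (b : ℕ) (σ : Site L → ℕ), (b : ℝ) ≤ B * Real.log L ^ j ∧ 2 * b + 1 ≤ L ∧
      Function.Injective σ ∧ ∑ v, cmiO σ (Ψ L) b v ≤ B * Real.log L ^ i

/-- For all large `L`, for some `b` of order `(log L) ^ j` and some order of the sites, the entropies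
of the regions `prev σ v`, `prev σ v ∩ near b v` and of these regions with `v` added are sums of
local terms, up to errors of order `(log L) ^ i / L ^ 2`: the term at `x` depends only on the part of
the region in the box of side `2 (b / 2) + 1` around `x`. -/
def AreaLaw {d : ℕ} (Ψ : ∀ L : ℕ, (Site L → Fin d) → ℂ) (j i : ℕ) (B : ℝ) : Prop :=
  ∃ L₀ : ℕ, ∀ (L : ℕ) [NeZero L], L₀ ≤ L →
    ∃ (b : ℕ) (σ : Site L → ℕ), (b : ℝ) ≤ B * Real.log L ^ j ∧ 2 * b + 1 ≤ L ∧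
      Function.Injective σ ∧ ∃ g : Site L → Finset (Site L) → ℝ, ∀ (v : Site L)
        (A : Finset (Site L)), A = prev σ v ∨ A = insert v (prev σ v) ∨ A = prev σ v ∩ near b v ∨
          A = insert v (prev σ v ∩ near b v) →
        |ent (Ψ L) A - ∑ x ∈ A, g x (A ∩ near (b / 2) x)| ≤ B * Real.log L ^ i / (L : ℝ) ^ 2

/-- choice of the phase -/
lemma dist_phase {n : Type*} [Fintype n] [DecidableEq n] (Ψ φ : n → ℂ) (hΨ : normSq Ψ = 1)
    (hφ : normSq φ = 1) : ∃ c : ℂ, nr (c • φ - Ψ) ^ 2 ≤ 2 * (1 - ‖ip Ψ φ‖) := by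
  have key : ∀ c : ℂ, ‖c‖ = 1 → nr (c • φ - Ψ) ^ 2 = 2 - 2 * (c * ip Ψ φ).re := by
    intro c hc
    have h1 : nr (c • φ) = 1 := by rw [nr_smul, hc, nr_one φ hφ, one_mul]
    have h2 : nr Ψ = 1 := nr_one Ψ hΨ
    have h3 : nr (c • φ - Ψ) ^ 2 = nr (c • φ) ^ 2 - 2 * (ip Ψ (c • φ)).re + nr Ψ ^ 2 := by
      rw [ip_eq]
      unfold nr
      rw [WithLp.toLp_sub, @norm_sub_sq ℂ, ← inner_conj_symm]
      congr 2
    rw [h3, h1, h2, ip_smul_right]
    ring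
  by_cases hz : ip Ψ φ = 0
  · refine ⟨1, ?_⟩
    rw [key 1 (by simp), hz]
    simp
  · have hz' : (‖ip Ψ φ‖ : ℝ) ≠ 0 := norm_ne_zero_iff.2 hz
    refine ⟨(starRingEnd ℂ) (ip Ψ φ) / ‖ip Ψ φ‖, ?_⟩
    rw [key _ (by
      rw [norm_div, RCLike.norm_conj, Complex.norm_real, norm_norm, div_self hz'])]
    have : (starRingEnd ℂ) (ip Ψ φ) / (‖ip Ψ φ‖ : ℂ) * ip Ψ φ = ((‖ip Ψ φ‖ : ℝ) : ℂ) := by
      rw [div_mul_eq_mul_div, RCLike.conj_mul]
      rw [div_eq_iff (by exact_mod_cast hz')]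
      rw [sq]
      rfl
    rw [this, Complex.ofReal_re]
    linarith

/-- the exponents of the bond dimension -/
lemma bond_num (C B B' l b S : ℝ) (J I : ℕ) (hC : 0 < C) (hB : 1 ≤ B) (hB' : 0 ≤ B') (hl : 1 ≤ l)
    (hb0 : 0 ≤ b) (hb : b ≤ B * l ^ J) (hS0 : 0 ≤ S) (hS : S ≤ B' * l ^ I) :
    C * (2 * b + 1) ^ 24 * (b ^ 2 + S) ≤
      (C * (3 * B) ^ 24 * (B ^ 2 + B')) * l ^ (24 * J + max (2 * J) I) := by
  have h1 : 2 * b + 1 ≤ 3 * B * l ^ J := by
    have : 1 ≤ B * l ^ J := by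
      have := one_le_pow₀ hl (n := J)
      nlinarith
    linarith
  have h2 : (2 * b + 1) ^ 24 ≤ (3 * B) ^ 24 * l ^ (24 * J) := by
    refine (pow_le_pow_left₀ (by linarith) h1 24).trans (le_of_eq ?_)
    rw [mul_pow, ← pow_mul, mul_comm J 24]
  have h3 : b ^ 2 ≤ B ^ 2 * l ^ max (2 * J) I := by
    refine (pow_le_pow_left₀ hb0 hb 2).trans ?_
    rw [mul_pow, ← pow_mul, mul_comm J 2]
    exact mul_le_mul_of_nonneg_left (pow_le_pow_right₀ hl (le_max_left _ _)) (sq_nonneg B)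
  have h4 : S ≤ B' * l ^ max (2 * J) I :=
    hS.trans (mul_le_mul_of_nonneg_left (pow_le_pow_right₀ hl (le_max_right _ _)) hB')
  obtain ⟨p, hp⟩ : ∃ p, p = (2 * b + 1) ^ 24 := ⟨_, rfl⟩
  obtain ⟨q, hq⟩ : ∃ q, q = l ^ max (2 * J) I := ⟨_, rfl⟩
  obtain ⟨r, hr⟩ : ∃ r, r = l ^ (24 * J) := ⟨_, rfl⟩
  obtain ⟨s, hs⟩ : ∃ s, s = (3 * B) ^ 24 := ⟨_, rfl⟩
  have hs0 : 0 ≤ s := by rw [hs]; positivity
  have hr0 : 0 ≤ r := by rw [hr]; exact pow_nonneg (by linarith) _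
  rw [pow_add, ← hp, ← hq, ← hr, ← hs]
  rw [← hp, ← hr, ← hs] at h2
  rw [← hq] at h3 h4
  calc C * p * (b ^ 2 + S) ≤ C * (s * r) * (B ^ 2 * q + B' * q) :=
        mul_le_mul (mul_le_mul_of_nonneg_left h2 hC.le) (add_le_add h3 h4)
          (add_nonneg (sq_nonneg b) hS0) (mul_nonneg hC.le (mul_nonneg hs0 hr0))
    _ = C * s * (B ^ 2 + B') * (r * q) := by ring

lemma log_small (A : ℝ) (k : ℕ) : ∃ L₀ : ℕ, ∀ L : ℕ, L₀ ≤ L → A * Real.log L ^ k ≤ L := by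
  have h1 := (Real.isLittleO_pow_log_id_atTop (n := k)).def (c := 1 / (|A| + 1)) (by positivity)
  have h2 := (tendsto_natCast_atTop_atTop (R := ℝ)).eventually h1
  obtain ⟨L₀, hL₀⟩ := Filter.eventually_atTop.1 h2
  refine ⟨L₀, fun L hL => ?_⟩
  have h3 := hL₀ L hL
  simp only [id_eq, Real.norm_eq_abs, Nat.abs_cast] at h3
  have h4 : A * Real.log L ^ k ≤ (|A| + 1) * |Real.log L ^ k| := by
    have e1 : A * Real.log L ^ k ≤ |A| * |Real.log L ^ k| := by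
      rw [← abs_mul]
      exact le_abs_self _
    have e2 := abs_nonneg (Real.log (L : ℝ) ^ k)
    linarith
  refine h4.trans ?_
  have h5 := mul_le_mul_of_nonneg_left h3 (show 0 ≤ |A| + 1 by positivity)
  refine h5.trans (le_of_eq ?_)
  field_simp

/-- families with decay of the conditional mutual information -/
theorem fam (hSu : StmSup) {d : ℕ} (hd : 2 ≤ d) (Ψ : ∀ L : ℕ, (Site L → Fin d) → ℂ)
    (hn : ∃ L₀ : ℕ, ∀ (L : ℕ) [NeZero L], L₀ ≤ L → normSq (Ψ L) = 1) (j : ℕ) (hj : 1 ≤ j)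
    (hM : MarkovDecay Ψ j) (m : ℕ) (hm : 1 ≤ m) (a : ℝ) (ha : 0 < a) :
    ∃ C : ℝ, Approx Ψ (26 * j * m) C fun L => Real.exp (-(a * Real.log L ^ m)) := by
  obtain ⟨L₁, hL₁⟩ := hn
  obtain ⟨p, c, L₀, hc, hL₀⟩ := hM
  obtain ⟨C, hC, hgen⟩ := general hSu d hd
  obtain ⟨K, hK⟩ : ∃ K : ℝ, K = (p + 2 * a + 2) / c := ⟨_, rfl⟩
  have hK0 : 0 < K := by rw [hK]; positivity
  have hcK : c * K = p + 2 * a + 2 := by rw [hK]; field_simp
  obtain ⟨B, hB⟩ : ∃ B : ℝ, B = K ^ j + 1 := ⟨_, rfl⟩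
  have hKj : 0 < K ^ j := pow_pos hK0 j
  have hB1 : 1 ≤ B := by rw [hB]; linarith
  obtain ⟨L₂, hL₂⟩ := log_small (3 * B) (m * j)
  refine ⟨C * (3 * B) ^ 24 * (B ^ 2 + (4 + 2 * a)), max (max 3 L₂) (max L₀ L₁), ?_⟩
  intro L _ hL
  have hL3 : 3 ≤ L := ((le_max_left _ _).trans (le_max_left _ _)).trans hL
  have hl := log_ge_one hL3
  have hLpos : (0 : ℝ) < L := by
    have : (3 : ℝ) ≤ L := by exact_mod_cast hL3
    linarith
  have hlog := hL₂ L (((le_max_right _ _).trans (le_max_left _ _)).trans hL)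
  have hunit := hL₁ L (((le_max_right _ _).trans (le_max_right _ _)).trans hL)
  have hMk := hL₀ L (((le_max_left _ _).trans (le_max_right _ _)).trans hL)
  obtain ⟨l, hll⟩ : ∃ l, l = Real.log L := ⟨_, rfl⟩
  rw [← hll] at hl hlog
  obtain ⟨lm, hlm⟩ : ∃ lm, lm = l ^ m := ⟨_, rfl⟩
  have hlm1 : 1 ≤ lm := by rw [hlm]; exact one_le_pow₀ hl
  have hllm : l ≤ lm := by
    rw [hlm]
    exact le_self_pow₀ hl (by omega)
  obtain ⟨b, hb⟩ : ∃ b : ℕ, b = ⌈(K * lm) ^ j⌉₊ := ⟨_, rfl⟩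
  have hKl0 : 0 < K * lm := mul_pos hK0 (by linarith)
  have hb1 : 1 ≤ b := by
    rw [hb]
    exact Nat.one_le_iff_ne_zero.2 (Nat.ceil_pos.2 (pow_pos hKl0 j)).ne'
  have hbl : (K * lm) ^ j ≤ b := by rw [hb]; exact Nat.le_ceil _
  have hbu : (b : ℝ) ≤ B * l ^ (m * j) := by
    have e1 : (b : ℝ) < (K * lm) ^ j + 1 := by rw [hb]; exact Nat.ceil_lt_add_one (pow_pos hKl0 j).le
    have e2 : (K * lm) ^ j = K ^ j * l ^ (m * j) := by rw [mul_pow, hlm, ← pow_mul]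
    have e3 : (1 : ℝ) ≤ l ^ (m * j) := one_le_pow₀ hl
    rw [e2] at e1
    have e4 : B * l ^ (m * j) = K ^ j * l ^ (m * j) + l ^ (m * j) := by rw [hB]; ring
    linarith
  have hbL : 2 * b + 1 ≤ L := by
    have e3 : (1 : ℝ) ≤ l ^ (m * j) := one_le_pow₀ hl
    have e4 : (1 : ℝ) ≤ B * l ^ (m * j) := by nlinarith
    have e5 : (2 * (b : ℝ) + 1) ≤ L := by
      have : 3 * B * l ^ (m * j) = 3 * (B * l ^ (m * j)) := by ring
      linarith
    exact_mod_cast e5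
  obtain ⟨σ, hσ, hη⟩ := hMk b hb1 hbL
  have hη0 := cmi_nonneg hSu d L hd b hbL σ hσ (Ψ L) hunit
  obtain ⟨E, hE⟩ : ∃ E, E = Real.exp (-(2 * a * lm)) := ⟨_, rfl⟩
  have hE0 : 0 < E := by rw [hE]; exact Real.exp_pos _
  have hE1 : E ≤ 1 := by
    rw [hE]
    exact Real.exp_le_one_iff.2 (by nlinarith)
  obtain ⟨ε, hε⟩ : ∃ ε, ε = E / 4 := ⟨_, rfl⟩
  have hε0 : 0 < ε := by rw [hε]; positivity
  obtain ⟨D, φ, g1, g2, g3, g4⟩ := hgen L b (by omega) hbL σ hσ (Ψ L) hunit ε hε0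
    (by rw [hε]; linarith)
  obtain ⟨η, hηd⟩ : ∃ η, η = ∑ v, cmiO σ (Ψ L) b v := ⟨_, rfl⟩
  rw [← hηd] at g1 g4 hη0 hη
  have hroot : K * lm ≤ (b : ℝ) ^ (1 / (j : ℝ)) := by
    have e1 : ((K * lm) ^ j) ^ (1 / (j : ℝ)) = K * lm := by
      rw [one_div]
      exact Real.pow_rpow_inv_natCast hKl0.le (by omega)
    rw [← e1]
    exact Real.rpow_le_rpow (pow_pos hKl0 j).le hbl (by positivity)
  have hηE : η ≤ E / 4 := by
    have e1 : (L : ℝ) ^ p = Real.exp (p * l) := by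
      rw [Real.exp_nat_mul, hll, Real.exp_log hLpos]
    have e2 : (L : ℝ) ^ p * Real.exp (-(c * (b : ℝ) ^ (1 / (j : ℝ)))) ≤
        Real.exp (-2) * E := by
      rw [e1, ← Real.exp_add, hE, ← Real.exp_add]
      apply Real.exp_le_exp.2
      have e3 : c * (K * lm) ≤ c * (b : ℝ) ^ (1 / (j : ℝ)) := mul_le_mul_of_nonneg_left hroot hc.le
      have e4 : c * (K * lm) = (p + 2 * a + 2) * lm := by rw [← hcK]; ring
      have e5 : (p : ℝ) * l ≤ p * lm := mul_le_mul_of_nonneg_left hllm (Nat.cast_nonneg p)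
      have e6 : (p + 2 * a + 2) * lm = p * lm + 2 * a * lm + 2 * lm := by ring
      linarith
    have e3 : Real.exp (-2) ≤ 1 / 4 := by
      rw [Real.exp_neg, ← one_div]
      apply one_div_le_one_div_of_le (by norm_num)
      have h2 : Real.exp 2 = Real.exp 1 * Real.exp 1 := by
        rw [← Real.exp_add]; norm_num
      have h3 := Real.exp_one_gt_d9
      rw [h2]
      nlinarith
    have e4 : Real.exp (-2) * E ≤ 1 / 4 * E := mul_le_mul_of_nonneg_right e3 hE0.le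
    linarith
  -- the distance
  obtain ⟨z, hz⟩ := dist_phase (Ψ L) φ hunit g3
  have hover : 1 - E / 2 ≤ ‖ip (Ψ L) φ‖ := by
    have e1 : ‖ip (Ψ L) φ‖ ≤ 1 := ip_le_one (Ψ L) φ (nr_one _ hunit) (nr_one _ g3)
    have e2 : ‖ip (Ψ L) φ‖ ^ 2 ≤ ‖ip (Ψ L) φ‖ := by
      rw [sq]
      exact mul_le_of_le_one_left (norm_nonneg _) e1
    have e3 : 1 - η ≤ Real.exp (-η) := by
      have := Real.add_one_le_exp (-η)
      linarith
    have e4 : (1 - ε) * (1 - η) ≤ (1 - ε) * Real.exp (-η) :=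
      mul_le_mul_of_nonneg_left e3 (by rw [hε]; linarith)
    have e5 : 0 ≤ ε * η := mul_nonneg hε0.le hη0
    nlinarith
  refine ⟨D, z • φ, ?_, g2.smul z, ?_⟩
  · refine g1.trans (Real.exp_le_exp.2 ?_)
    have hlogε : Real.log (1 / ε) = Real.log 4 + 2 * a * lm := by
      have : 1 / ε = 4 * Real.exp (2 * a * lm) := by
        rw [hε, hE, Real.exp_neg]
        field_simp
      rw [this, Real.log_mul (by norm_num) (Real.exp_pos _).ne', Real.log_exp]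
    have hlog4 : Real.log 4 ≤ 2 := by
      have : Real.log 4 = 2 * Real.log 2 := by
        rw [show (4 : ℝ) = 2 ^ 2 by norm_num, Real.log_pow]
        norm_num
      have := Real.log_two_lt_d9
      linarith
    have hlog40 : 0 ≤ Real.log 4 := Real.log_nonneg (by norm_num)
    have hkey := bond_num C B (4 + 2 * a) l b (η + l + Real.log (1 / ε)) (m * j) m hC hB1
      (by positivity) hl (Nat.cast_nonneg b) hbu
      (by rw [hlogε]; have : 0 ≤ 2 * a * lm := by positivity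
          linarith)
      (by
        rw [hlogε, ← hlm]
        have : (4 + 2 * a) * lm = 4 * lm + 2 * a * lm := by ring
        rw [this]
        linarith)
    have hmax : 24 * (m * j) + max (2 * (m * j)) m = 26 * j * m := by
      have h1 : m ≤ 2 * (m * j) := by nlinarith
      rw [max_eq_left h1]
      ring
    rw [hmax] at hkey
    rw [← hll]
    refine le_trans (le_of_eq ?_) hkey
    ring
  · rw [sqrt_normSq]
    beta_reduce
    rw [← hll, ← hlm]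
    refine le_of_sq_le_sq ?_ (Real.exp_pos _).le
    refine hz.trans ?_
    have e1 : Real.exp (-(a * lm)) ^ 2 = E := by
      rw [← Real.exp_nat_mul, hE]
      congr 1
      push_cast
      ring
    rw [e1]
    linarith

/-- gapped families: a large overlap -/
theorem gapped (hSu : StmSup) {d : ℕ} (hd : 2 ≤ d) (Ψ : ∀ L : ℕ, (Site L → Fin d) → ℂ)
    (hn : ∃ L₀ : ℕ, ∀ (L : ℕ) [NeZero L], L₀ ≤ L → normSq (Ψ L) = 1) (j i : ℕ) (hi : 1 ≤ i)
    (B₀ : ℝ) (hM : MarkovTotal Ψ j i B₀) :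
    ∃ C : ℝ, PureOverlap Ψ (24 * j + max (2 * j) i) C := by
  obtain ⟨L₁, hL₁⟩ := hn
  obtain ⟨L₀, hL₀⟩ := hM
  obtain ⟨C, hC, hgen⟩ := general hSu d hd
  obtain ⟨B, hB⟩ : ∃ B : ℝ, B = |B₀| + 1 := ⟨_, rfl⟩
  have hB1 : 1 ≤ B := by rw [hB]; have := abs_nonneg B₀; linarith
  have hBB : B₀ ≤ B := by rw [hB]; have := le_abs_self B₀; linarith
  obtain ⟨C1, hC1⟩ : ∃ C1 : ℝ, C1 = C * (3 * B) ^ 24 * (B ^ 2 + (B + 2)) := ⟨_, rfl⟩
  have hC10 : 0 ≤ C1 := by rw [hC1]; positivity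
  refine ⟨C1 + B, max 3 (max L₀ L₁), ?_⟩
  intro L _ hL
  have hL3 : 3 ≤ L := (le_max_left _ _).trans hL
  have hl := log_ge_one hL3
  have hunit := hL₁ L (((le_max_right _ _).trans (le_max_right _ _)).trans hL)
  obtain ⟨b, σ, hb, hbL, hσ, hη⟩ := hL₀ L (((le_max_left _ _).trans (le_max_right _ _)).trans hL)
  have hη0 := cmi_nonneg hSu d L hd b hbL σ hσ (Ψ L) hunit
  obtain ⟨D, φ, g1, g2, g3, g4⟩ := hgen L b (by omega) hbL σ hσ (Ψ L) hunit (1 / 2)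
    (by norm_num) (by norm_num)
  obtain ⟨η, hηd⟩ : ∃ η, η = ∑ v, cmiO σ (Ψ L) b v := ⟨_, rfl⟩
  rw [← hηd] at g1 g4 hη0 hη
  obtain ⟨l, hll⟩ : ∃ l, l = Real.log L := ⟨_, rfl⟩
  rw [← hll] at hl hb hη g1 ⊢
  have hli : 1 ≤ l ^ i := one_le_pow₀ hl
  have hlj : 1 ≤ l ^ j := one_le_pow₀ hl
  have hlli : l ≤ l ^ i := le_self_pow₀ hl (by omega)
  have hb' : (b : ℝ) ≤ B * l ^ j := hb.trans (mul_le_mul_of_nonneg_right hBB (by linarith))
  have hη' : η ≤ B * l ^ i := hη.trans (mul_le_mul_of_nonneg_right hBB (by linarith))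
  have hlog2 : Real.log (1 / (1 / 2)) ≤ 1 := by
    rw [one_div_one_div]
    have := Real.log_two_lt_d9
    linarith
  have hlog20 : 0 ≤ Real.log (1 / (1 / 2)) := by
    rw [one_div_one_div]
    exact Real.log_nonneg (by norm_num)
  have hkey := bond_num C B (B + 2) l b (η + l + Real.log (1 / (1 / 2))) j i hC hB1
    (by linarith) hl (Nat.cast_nonneg b) hb' (by linarith)
    (by
      have : (B + 2) * l ^ i = B * l ^ i + l ^ i + l ^ i := by ring
      rw [this]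
      linarith)
  obtain ⟨k, hk⟩ : ∃ k, k = 24 * j + max (2 * j) i := ⟨_, rfl⟩
  rw [← hk, ← hC1] at hkey
  rw [← hk]
  have hlk : 1 ≤ l ^ k := one_le_pow₀ hl
  have hik : l ^ i ≤ l ^ k := by
    refine pow_le_pow_right₀ hl ?_
    rw [hk]
    exact (le_max_right _ _).trans (Nat.le_add_left _ _)
  refine ⟨D, φ, ?_, g2, g3, ?_⟩
  · refine g1.trans (Real.exp_le_exp.2 ?_)
    have e1 : C * (2 * (b : ℝ) + 1) ^ 24 * ((b : ℝ) ^ 2 + η + l + Real.log (1 / (1 / 2))) =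
      C * (2 * (b : ℝ) + 1) ^ 24 * ((b : ℝ) ^ 2 + (η + l + Real.log (1 / (1 / 2)))) := by ring
    rw [e1]
    refine hkey.trans (mul_le_mul_of_nonneg_right (by linarith) (by linarith))
  · refine le_of_sq_le_sq ?_ (norm_nonneg _)
    refine le_trans ?_ g4
    have e1 : (1 - 1 / 2 : ℝ) = Real.exp (-Real.log 2) := by
      rw [Real.exp_neg, Real.exp_log (by norm_num)]
      norm_num
    rw [e1, ← Real.exp_add, ← Real.exp_nat_mul]
    apply Real.exp_le_exp.2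
    have e2 : Real.log 2 ≤ 1 := by
      have := Real.log_two_lt_d9
      linarith
    have e3 : 0 ≤ C1 * l ^ k := by positivity
    have e4 : B * l ^ i ≤ B * l ^ k := mul_le_mul_of_nonneg_left hik (by linarith)
    have e5 : 1 ≤ B * l ^ k := by nlinarith
    have e6 : (C1 + B) * l ^ k = C1 * l ^ k + B * l ^ k := by ring
    rw [e6]
    push_cast
    linarith

/-- area laws with local boundary terms -/
theorem area (hAr : StmArea) {d : ℕ} (Ψ : ∀ L : ℕ, (Site L → Fin d) → ℂ) (j i : ℕ) (B : ℝ)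
    (hA : AreaLaw Ψ j i B) : MarkovTotal Ψ j i (4 * |B|) := by
  obtain ⟨L₀, hL₀⟩ := hA
  refine ⟨max 3 L₀, ?_⟩
  intro L _ hL
  have hl := log_ge_one ((le_max_left _ _).trans hL)
  obtain ⟨b, σ, hb, hbL, hσ, g, hg⟩ := hL₀ L ((le_max_right _ _).trans hL)
  have hlj : 0 ≤ Real.log L ^ j := pow_nonneg (by linarith) _
  have hli : 0 ≤ Real.log L ^ i := pow_nonneg (by linarith) _
  have hB4 : B ≤ 4 * |B| := by
    have := le_abs_self B
    have := abs_nonneg B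
    linarith
  refine ⟨b, σ, hb.trans (mul_le_mul_of_nonneg_right hB4 hlj), hbL, hσ, ?_⟩
  have hLne : (L : ℝ) ≠ 0 := by exact_mod_cast NeZero.ne L
  have key : ∀ v, cmiO σ (Ψ L) b v ≤ 4 * (B * Real.log L ^ i / (L : ℝ) ^ 2) := by
    intro v
    have h1 := abs_le.1 (hg v (insert v (prev σ v ∩ near b v)) (by simp))
    have h2 := abs_le.1 (hg v (prev σ v) (by simp))
    have h3 := abs_le.1 (hg v (prev σ v ∩ near b v) (by simp))
    have h4 := abs_le.1 (hg v (insert v (prev σ v)) (by simp))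
    have h5 := hAr L b (b / 2) (by omega) g v (prev σ v) (not_mem_prev v)
    unfold locf at h5
    unfold cmiO
    linarith [h1.1, h1.2, h2.1, h2.2, h3.1, h3.2, h4.1, h4.2]
  refine (Finset.sum_le_sum fun v _ => key v).trans ?_
  rw [Finset.sum_const, Finset.card_univ, Fintype.card_prod, ZMod.card, nsmul_eq_mul]
  have e1 : ((L * L : ℕ) : ℝ) * (4 * (B * Real.log L ^ i / (L : ℝ) ^ 2)) =
      4 * (B * Real.log L ^ i) := by
    push_cast
    field_simp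
  rw [e1]
  have : B * Real.log L ^ i ≤ |B| * Real.log L ^ i :=
    mul_le_mul_of_nonneg_right (le_abs_self B) hli
  linarith

end Pool.Agent.U753.MG
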