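import Pool.Agent.TH235.PQ.Lab

/-!
# Site dependent interactions: the truncated expansion maps PEPS to PEPS
-/

set_option autoImplicit false
set_option linter.unusedSectionVars false

open scoped BigOperators Matrix
open Finset Pool.Agent.TH235.PP Pool.Agent.TH235.PQ

namespace Pool.Agent.U753.MG

section net

variable {d R' L : ℕ} [NeZero L]

/-- A sum over families of labels with a local constraint maps tensor network vectors to tensor
network vectors. -/
theorem netS {Λ : Type} [Fintype Λ] [Nonempty Λ] {K : Type*} [Fintype K]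
    (A0 : Site L → Fin d → K → K → K → K → ℂ) {M N : ℕ} (e : Fin N ≃ Site L)
    (val : Λ → (Fin M → Option (Lm d (R' + 1)))) (w : Site L → Λ → ℂ) (X : Site L → (Site L → Λ) → Prop)
    (hX : ∀ (v : Site L) (g g' : Site L → Λ),
      (∀ (u : Site L) (x : Fin (2 * R' + 1) × Fin (2 * R' + 1)), sh u x = v → g u = g' u) →
      (X (cen R' v) g ↔ X (cen R' v) g')) :
    ∃ A : Site L → Fin d → (K × (Fin (2 * R' + 1) × Fin (2 * R' + 1) → Λ)) →
      (K × (Fin (2 * R' + 1) × Fin (2 * R' + 1) → Λ)) →
      (K × (Fin (2 * R' + 1) × Fin (2 * R' + 1) → Λ)) →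
      (K × (Fin (2 * R' + 1) × Fin (2 * R' + 1) → Λ)) → ℂ,
      (∑ g : Site L → Λ, (open Classical in if ∀ u, X u g then ∏ u, w u (g u) else 0) •
        tp (OvG e fun u => val (g u))).mulVec (contract A0) = contract A := by
  classical
  set f : Site L → Fin d → (Fin (2 * R' + 1) × Fin (2 * R' + 1) → Λ) →
      K → K → K → K → ℂ := fun v a' W l r' dn up =>
    (if X (cen R' v) (ext v W) then w (cen R' v) (ext v W (cen R' v)) else 0) *
      ∑ a, OvG e (fun u => val (ext v W u)) v a' a * A0 v a l r' dn up with hf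
  refine ⟨_, Eq.trans ?_ (peps_core f).symm⟩
  funext s
  have hfw : ∀ (g : Site L → Λ) (v : Site L) (a' : Fin d) (l r' dn up : K),
      f v a' (win g v) l r' dn up =
        (if X (cen R' v) g then w (cen R' v) (g (cen R' v)) else 0) *
          ∑ a, OvG e (fun u => val (g u)) v a' a * A0 v a l r' dn up := by
    intro g v a' l r' dn up
    simp only [hf]
    have h1 : ∀ (u : Site L) (x : Fin (2 * R' + 1) × Fin (2 * R' + 1)), sh u x = v →
        ext v (win (R' := 2 * R') g v) u = g u := fun u x hx => ext_win g v u ⟨x, hx⟩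
    rw [h1 _ _ (sh_cen v)]
    have h2 : OvG e (fun u => val (ext v (win (R' := 2 * R') g v) u)) v =
        OvG e (fun u => val (g u)) v := by
      apply OvG_congr
      intro u x hx
      rw [h1 u _ (sh_big u v x hx)]
    rw [h2]
    have h3 : X (cen R' v) (ext v (win (R' := 2 * R') g v)) ↔ X (cen R' v) g := hX v _ _ h1
    by_cases hx : X (cen R' v) g
    · rw [if_pos hx, if_pos (h3.2 hx)]
    · rw [if_neg hx, if_neg fun hh => hx (h3.1 hh)]
  have hprod : ∀ g : Site L → Λ, (if ∀ u, X u g then ∏ u, w u (g u) else 0) =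
      ∏ v, (if X (cen R' v) g then w (cen R' v) (g (cen R' v)) else 0) := by
    intro g
    have e1 : ∏ v : Site L, (if X (cen R' v) g then w (cen R' v) (g (cen R' v)) else 0) =
        ∏ u : Site L, (if X u g then w u (g u) else 0) :=
      (Equiv.subRight (((R' : ℕ) : ZMod L), ((R' : ℕ) : ZMod L))).prod_comp
        (fun u => if X u g then w u (g u) else 0)
    rw [e1]
    split_ifs with hc
    · exact Finset.prod_congr rfl fun u _ => (if_pos (hc u)).symm
    · push Not at hc
      obtain ⟨u, hu⟩ := hc
      symm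
      apply Finset.prod_eq_zero (mem_univ u)
      rw [if_neg hu]
  unfold Matrix.mulVec dotProduct
  simp only [Matrix.sum_apply, Matrix.smul_apply, smul_eq_mul, Finset.sum_mul]
  rw [Finset.sum_comm]
  refine Finset.sum_congr rfl fun g _ => ?_
  unfold contract
  simp only [Finset.mul_sum]
  rw [Finset.sum_comm]
  refine Finset.sum_congr rfl fun h0 _ => ?_
  rw [Finset.sum_comm]
  refine Finset.sum_congr rfl fun v0 _ => ?_
  simp only [hfw]
  rw [Finset.prod_mul_distrib, ← hprod, Finset.prod_univ_sum, Fintype.piFinset_univ,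
    Finset.mul_sum]
  refine Finset.sum_congr rfl fun x _ => ?_
  unfold tp
  rw [Finset.prod_mul_distrib]
  ring

end net



section lab

variable {d R' L : ℕ} [NeZero L]

lemma term_commS (h h' : BoxOp d (R' + 1)) (u u' : Site L)
    (hd : ∀ x x' : Fin (R' + 1) × Fin (R' + 1), sh u x ≠ sh u' x') :
    Commute (term h u) (term h' u') := by
  rw [term_eq h u, term_eq h' u']
  refine Commute.sum_left _ _ _ fun pq _ => Commute.sum_right _ _ _ fun pq' _ => ?_
  refine Commute.smul_left (Commute.smul_right ?_ _) _
  unfold Commute SemiconjBy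
  rw [tp_mul, tp_mul]
  congr 1
  funext v
  by_cases hv : ∃ x : Fin (R' + 1) × Fin (R' + 1), sh u x = v
  · obtain ⟨x, rfl⟩ := hv
    rw [loc_out u' _ _ _ (fun x' => (hd x x').symm), mul_one, one_mul]
  · push Not at hv
    rw [loc_out u _ _ _ hv, mul_one, one_mul]

lemma y_commS (c : ℂ) (h : Site L → BoxOp d (R' + 1)) {N : ℕ} (e : Fin N ≃ Site L) (b b' : Fin N)
    (hb : ¬ adjR R' e b b') :
    (c • term (h (e b)) (e b)) * (c • term (h (e b')) (e b')) =
      (c • term (h (e b')) (e b')) * (c • term (h (e b)) (e b)) := by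
  by_cases hbb : b = b'
  · rw [hbb]
  · have hd : ∀ x x' : Fin (R' + 1) × Fin (R' + 1), sh (e b) x ≠ sh (e b') x' := by
      intro x x' hx
      exact hb ⟨hbb, x, x', hx⟩
    exact ((term_commS (h (e b)) (h (e b')) (e b) (e b') hd).smul_left c).smul_right c

/-- total coefficient of a label -/
noncomputable def wgtS (c : ℂ) (h : Site L → BoxOp d (R' + 1)) {q r : ℕ} (u : Site L)
    (φ : LabT d (R' + 1) q r) : ℂ :=
  ∏ n, cf c (h u) q n (φ.1 n)

lemma PN_eqS (hL : R' + 1 ≤ L) (c : ℂ) (h : Site L → BoxOp d (R' + 1)) {N : ℕ} (e : Fin N ≃ Site L) (q : ℕ)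
    (G : Fin (nn q) → Fin N → Bool) : PN q (fun b => c • term (h (e b)) (e b)) G =
      ∑ H : Fin (nn q) → Fin N → Option (Lm d (R' + 1)), open Classical in
        if (∀ n b, (H n b).isSome = G n b) then
          pr (fun n b => cf c (h (e b)) q n (H n b) • tp (lo (e b) (H n b))) else 0 := by
  classical
  have e1 : PN q (fun b => c • term (h (e b)) (e b)) G = pr (fun n b => ∑ o : Option (Lm d (R' + 1)),
      if o.isSome = G n b then cf c (h (e b)) q n o • tp (lo (e b) o) else (0 : TorOp d L)) := by
    unfold PN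
    congr 1
    funext n b
    rw [Fintype.sum_option]
    cases hF : G n b with
    | true =>
      simp only [if_true, Option.isSome_none, Option.isSome_some, Bool.false_eq_true, if_false,
        zero_add]
      rw [← term_pow hL, term_eq]
      rfl
    | false =>
      simp only [Bool.false_eq_true, if_false, Option.isSome_none, if_true, Option.isSome_some,
        Bool.true_eq_false, Finset.sum_const_zero, add_zero]
      simp only [cf, lo]
      rw [tp_one, one_smul]
  rw [e1]
  have e2 := pr_sum (M := nn q) (fun (n : Fin (nn q)) (b : Fin N) (o : Option (Lm d (R' + 1))) =>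
    if o.isSome = G n b then cf c (h (e b)) q n o • tp (lo (e b) o) else (0 : TorOp d L))
  rw [e2]
  refine Finset.sum_congr rfl fun H _ => ?_
  split_ifs with hc
  · congr 1
    funext n b
    rw [if_pos (hc n b)]
  · push Not at hc
    obtain ⟨n, b, hne⟩ := hc
    apply pr_eq_zero _ n b
    rw [if_neg hne]

lemma KA_eqS (hreg : REG) (hL : R' + 1 ≤ L) (c : ℂ) (h : Site L → BoxOp d (R' + 1)) {N : ℕ}
    (e : Fin N ≃ Site L) (q r : ℕ) :
    KA (adjR R' e) q (fun b => c • term (h (e b)) (e b)) r =
      ∑ g : Site L → LabT d (R' + 1) q r,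
        (open Classical in if ∀ u, XX e u g then ∏ u, wgtS c h u (g u) else 0) •
          tp (OvG e fun u => (g u).1) := by
  classical
  rw [hreg (TorOp d L) N (adjR R' e) (fun b => c • term (h (e b)) (e b)) (adjR_symm e) (adjR_irr e)
    (y_commS c h e) q r]
  -- exchange the sums
  have h2 : (∑ G : Fin (nn q) → Fin N → Bool, open Classical in
      if (∀ b, adm (adjR R' e) q G b) ∧ (∀ b, actn (adjR R' e) q G b ≤ r) then
        PN q (fun b => c • term (h (e b)) (e b)) G else 0) =
      ∑ H : Fin (nn q) → Fin N → Option (Lm d (R' + 1)),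
        if (∀ b, adm (adjR R' e) q (fun n b => (H n b).isSome) b) ∧
          (∀ b, actn (adjR R' e) q (fun n b => (H n b).isSome) b ≤ r) then
          pr (fun n b => cf c (h (e b)) q n (H n b) • tp (lo (e b) (H n b))) else (0 : TorOp d L) := by
    simp only [PN_eqS hL]
    have h3 : ∀ G : Fin (nn q) → Fin N → Bool,
        (if (∀ b, adm (adjR R' e) q G b) ∧ (∀ b, actn (adjR R' e) q G b ≤ r) then
          ∑ H : Fin (nn q) → Fin N → Option (Lm d (R' + 1)),
          (if (∀ n b, (H n b).isSome = G n b) then
            pr (fun n b => cf c (h (e b)) q n (H n b) • tp (lo (e b) (H n b))) else 0)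
            else (0 : TorOp d L)) =
        ∑ H : Fin (nn q) → Fin N → Option (Lm d (R' + 1)),
          if (fun n b => (H n b).isSome) = G then
          (if (∀ b, adm (adjR R' e) q (fun n b => (H n b).isSome) b) ∧
          (∀ b, actn (adjR R' e) q (fun n b => (H n b).isSome) b ≤ r) then
          pr (fun n b => cf c (h (e b)) q n (H n b) • tp (lo (e b) (H n b))) else 0) else 0 := by
      intro G
      by_cases hF : (∀ b, adm (adjR R' e) q G b) ∧ (∀ b, actn (adjR R' e) q G b ≤ r)
      · rw [if_pos hF]
        refine Finset.sum_congr rfl fun H _ => ?_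
        by_cases hG : (fun n b => (H n b).isSome) = G
        · have hG' : ∀ n b, (H n b).isSome = G n b := fun n b => congrFun (congrFun hG n) b
          rw [if_pos hG, if_pos hG', if_pos]
          rw [hG]
          exact hF
        · rw [if_neg hG, if_neg (fun hh => hG (funext fun n => funext fun b => hh n b))]
      · rw [if_neg hF]
        symm
        apply Finset.sum_eq_zero
        intro H _
        by_cases hG : (fun n b => (H n b).isSome) = G
        · rw [if_pos hG, if_neg]
          rw [hG]
          exact hF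
        · rw [if_neg hG]
    have h4 : (∑ G : Fin (nn q) → Fin N → Bool, open Classical in
      if (∀ b, adm (adjR R' e) q G b) ∧ (∀ b, actn (adjR R' e) q G b ≤ r) then
        ∑ H : Fin (nn q) → Fin N → Option (Lm d (R' + 1)), 
          (if (∀ n b, (H n b).isSome = G n b) then
            pr (fun n b => cf c (h (e b)) q n (H n b) • tp (lo (e b) (H n b))) else 0)
        else (0 : TorOp d L)) = 
        ∑ G : Fin (nn q) → Fin N → Bool, ∑ H : Fin (nn q) → Fin N → Option (Lm d (R' + 1)),
          if (fun n b => (H n b).isSome) = G then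
          (if (∀ b, adm (adjR R' e) q (fun n b => (H n b).isSome) b) ∧
          (∀ b, actn (adjR R' e) q (fun n b => (H n b).isSome) b ≤ r) then
          pr (fun n b => cf c (h (e b)) q n (H n b) • tp (lo (e b) (H n b))) else 0) else 0 := by
      refine Finset.sum_congr rfl fun G _ => ?_
      rw [← h3 G]
    refine Eq.trans ?_ (h4.trans ?_)
    · refine Finset.sum_congr rfl fun G _ => ?_
      congr
    · rw [Finset.sum_comm]
      refine Finset.sum_congr rfl fun H _ => ?_
      rw [Finset.sum_ite_eq]
      simp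
  rw [h2, ← Finset.sum_filter]
  -- reindex
  have h5 : (∑ g : Site L → LabT d (R' + 1) q r,
        (open Classical in if ∀ u, XX e u g then ∏ u, wgtS c h u (g u) else 0) •
          tp (OvG e fun u => (g u).1)) =
      ∑ g ∈ (univ : Finset (Site L → LabT d (R' + 1) q r)).filter fun g => ∀ u, XX e u g,
        (∏ u, wgtS c h u (g u)) • tp (OvG e fun u => (g u).1) := by
    rw [Finset.sum_filter]
    refine Finset.sum_congr rfl fun g _ => ?_
    by_cases hx : ∀ u, XX e u g
    · rw [if_pos hx, if_pos hx]
    · rw [if_neg hx, if_neg hx, zero_smul]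
  rw [h5]
  symm
  refine Finset.sum_bij' (i := fun (g : Site L → LabT d (R' + 1) q r) _ =>
      fun n b => (g (e b)).1 n)
    (j := fun (H : Fin (nn q) → Fin N → Option (Lm d (R' + 1))) hH => fun u =>
      (⟨fun n => H n (e.symm u), by
        have h6 := (mem_filter.1 hH).2
        have h7 := sz_le (adjR R' e) q H (e.symm u) (h6.1 (e.symm u))
        have h8 := h6.2 (e.symm u)
        omega⟩ : LabT d (R' + 1) q r)) ?_ ?_ ?_ ?_ ?_
  · intro g hg
    rw [mem_filter] at hg ⊢
    refine ⟨mem_univ _, fun b => ?_, fun b => ?_⟩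
    · have := (hg.2 (e b)).1
      rw [e.symm_apply_apply] at this
      exact this
    · have := (hg.2 (e b)).2
      rw [e.symm_apply_apply] at this
      exact this
  · intro H hH
    have h6 := (mem_filter.1 hH).2
    rw [mem_filter]
    have h7 : pat e (fun u => (⟨fun n => H n (e.symm u), by
        have h7 := sz_le (adjR R' e) q H (e.symm u) (h6.1 (e.symm u))
        have h8 := h6.2 (e.symm u)
        omega⟩ : LabT d (R' + 1) q r)) = fun n b => (H n b).isSome := by
      funext n b
      unfold pat
      simp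
    refine ⟨mem_univ _, fun u => ?_⟩
    unfold XX
    rw [h7]
    exact ⟨h6.1 _, h6.2 _⟩
  · intro g _
    funext u
    apply Subtype.ext
    simp
  · intro H _
    funext n b
    simp
  · intro g _
    rw [pr_smul, tp_pr]
    congr 1
    unfold wgtS
    rw [← e.prod_comp, Finset.prod_comm]

/-- The truncated expansion maps tensor network vectors to tensor network vectors. -/
theorem peps_KAS (hreg : REG) (hL : R' + 1 ≤ L) {K : Type*} [Fintype K]
    (A0 : Site L → Fin d → K → K → K → K → ℂ) (c : ℂ) (h : Site L → BoxOp d (R' + 1)) {N : ℕ}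
    (e : Fin N ≃ Site L) (q r : ℕ) :
    ∃ A : Site L → Fin d →
      (K × (Fin (2 * R' + 1) × Fin (2 * R' + 1) → LabT d (R' + 1) q r)) →
      (K × (Fin (2 * R' + 1) × Fin (2 * R' + 1) → LabT d (R' + 1) q r)) →
      (K × (Fin (2 * R' + 1) × Fin (2 * R' + 1) → LabT d (R' + 1) q r)) →
      (K × (Fin (2 * R' + 1) × Fin (2 * R' + 1) → LabT d (R' + 1) q r)) → ℂ,
      (KA (adjR R' e) q (fun b => c • term (h (e b)) (e b)) r).mulVec (contract A0) = contract A := by
  rw [KA_eqS hreg hL c h e q r]
  refine netS A0 e (fun φ : LabT d (R' + 1) q r => φ.1) (fun u φ => wgtS c h u φ)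
    (fun u g => XX e u g) ?_
  intro v g g' hgg
  have hc : g (cen R' v) = g' (cen R' v) := hgg _ _ (sh_cen v)
  have h1 : ∀ n, pat e g n (e.symm (cen R' v)) = pat e g' n (e.symm (cen R' v)) := by
    intro n
    unfold pat
    rw [e.apply_symm_apply, hc]
  have h2 : ∀ n b', adjR R' e (e.symm (cen R' v)) b' → pat e g n b' = pat e g' n b' := by
    intro n b' hb'
    obtain ⟨-, x, x', hx⟩ := hb'
    rw [e.apply_symm_apply] at hx
    unfold pat
    rw [hgg (e b') (⟨R' + x'.1.1 - x.1.1, by omega⟩, ⟨R' + x'.2.1 - x.2.1, by omega⟩) ?_]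
    unfold sh cen at hx
    rw [Prod.mk.injEq] at hx
    unfold sh
    simp only []
    have hx1 := hx.1
    have hx2 := hx.2
    ext
    · simp only []
      rw [Nat.cast_sub (by omega), Nat.cast_add]
      linear_combination -hx1
    · simp only []
      rw [Nat.cast_sub (by omega), Nat.cast_add]
      linear_combination -hx2
  unfold XX
  rw [adm_congr (adjR R' e) q _ _ _ h1 h2, actn_congr (adjR R' e) q _ _ _ h1 h2]

end lab

end Pool.Agent.U753.MG
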