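import Pool.Agent.U753.FE.ColK
import Pool.Agent.N692.TP.Tel

/-!
# A column of an approximate power with large overlap with a given vector
-/

set_option autoImplicit false
set_option linter.unusedSectionVars false

open scoped BigOperators ComplexConjugate Matrix

noncomputable section

namespace Pool.Agent.U753.MG

open Pool.Agent.N658.TP Pool.Agent.TH235 Pool.Agent.TH235.PP Pool.Agent.N134.TP.Col
open Pool.Agent.U753.FE

section overw

variable {n : Type} [Fintype n] [DecidableEq n]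

/-- the overlaps with the columns -/
lemma sum_ip_col (K0 : Matrix n n ℂ) (Ψ : n → ℂ) :
    ∑ t, ‖PP.ip Ψ (fun s => K0 s t)‖ ^ 2 = nr (K0ᴴ *ᵥ Ψ) ^ 2 := by
  rw [nr_sq]
  unfold PP.normSq
  refine Finset.sum_congr rfl fun t _ => ?_
  congr 1
  have : (K0ᴴ *ᵥ Ψ) t = (starRingEnd ℂ) (PP.ip Ψ (fun s => K0 s t)) := by
    unfold Matrix.mulVec dotProduct PP.ip
    rw [map_sum]
    refine Finset.sum_congr rfl fun s _ => ?_
    change star (K0 s t) * Ψ s = (starRingEnd ℂ) ((starRingEnd ℂ) (Ψ s) * K0 s t)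
    rw [map_mul, Complex.conj_conj, mul_comm]
    rfl
  rw [this, RCLike.norm_conj]

/-- the norm is at most the Frobenius norm -/
lemma nr_adj_le [Nonempty n] (B : Matrix n n ℂ) (Ψ : n → ℂ) (hΨ : normSq Ψ = 1) :
    nr (Bᴴ *ᵥ Ψ) ≤ fr B := by
  have h1 : nr Ψ = 1 := by
    have := nr_sq Ψ
    rw [hΨ] at this
    exact (pow_eq_one_iff_of_nonneg (nr_nonneg Ψ) two_ne_zero).1 this
  refine le_of_sq_le_sq ?_ (fr_nonneg B)
  rw [← sum_ip_col, fr_sq, ← sum_normSq]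
  refine Finset.sum_le_sum fun t _ => ?_
  have h2 := ip_le Ψ (fun s => B s t)
  rw [h1, one_mul] at h2
  rw [← nr_sq]
  exact pow_le_pow_left₀ (norm_nonneg _) h2 2

/-- real numbers -/
lemma over_num {W G N F ε kap E δ' x : ℝ} (hW : 0 < W) (hε : 0 < ε) (hε1 : ε ≤ 1)
    (hE : E = Real.exp (-(kap / 2))) (hδ0 : 0 ≤ δ') (hδ : δ' ≤ ε * E / 8) (hk : E ≤ 1)
    (hx : x ≤ ε / 8) (hG0 : 0 ≤ G) (hG : W * (E * Real.exp (-x)) ≤ G) (hN : G ≤ N + δ' * W)
    (hF : F ≤ W + δ' * W) (hF0 : 0 ≤ F) :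
    (1 - ε) * Real.exp (-kap) * F ^ 2 ≤ N ^ 2 := by
  have hE0 : 0 < E := by rw [hE]; exact Real.exp_pos _
  have e1 : 1 - ε / 8 ≤ Real.exp (-x) := by
    have := Real.add_one_le_exp (-x)
    linarith
  have e2 : W * E * (1 - ε / 4) ≤ N := by
    have a1 : W * (E * (1 - ε / 8)) ≤ W * (E * Real.exp (-x)) :=
      mul_le_mul_of_nonneg_left (mul_le_mul_of_nonneg_left e1 hE0.le) hW.le
    have a2 : δ' * W ≤ ε * E / 8 * W := mul_le_mul_of_nonneg_right hδ hW.le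
    have a3 : W * E * (1 - ε / 4) = W * (E * (1 - ε / 8)) - ε * E / 8 * W := by ring
    linarith
  have e3 : F ≤ W * (1 + ε / 8) := by
    have a1 : δ' * W ≤ ε / 8 * W := by
      refine mul_le_mul_of_nonneg_right (hδ.trans ?_) hW.le
      have : ε * E ≤ ε * 1 := mul_le_mul_of_nonneg_left hk hε.le
      linarith
    linarith
  have e4 : (1 - 3 * ε / 8) * (1 + ε / 8) ≤ 1 - ε / 4 := by nlinarith [sq_nonneg ε]
  have e5 : (1 - 3 * ε / 8) * E * F ≤ N := by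
    have a0 : 0 ≤ (1 - 3 * ε / 8) * E := mul_nonneg (by linarith) hE0.le
    have a1 : (1 - 3 * ε / 8) * E * F ≤ (1 - 3 * ε / 8) * E * (W * (1 + ε / 8)) :=
      mul_le_mul_of_nonneg_left e3 a0
    have a2 : (1 - 3 * ε / 8) * E * (W * (1 + ε / 8)) =
        W * E * ((1 - 3 * ε / 8) * (1 + ε / 8)) := by ring
    have a3 : W * E * ((1 - 3 * ε / 8) * (1 + ε / 8)) ≤ W * E * (1 - ε / 4) :=
      mul_le_mul_of_nonneg_left e4 (by positivity)
    linarith
  have e6 : 0 ≤ (1 - 3 * ε / 8) * E * F :=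
    mul_nonneg (mul_nonneg (by linarith) hE0.le) hF0
  have e7 := pow_le_pow_left₀ e6 e5 2
  have e8 : E ^ 2 = Real.exp (-kap) := by
    rw [hE, ← Real.exp_nat_mul]
    congr 1
    push_cast
    ring
  refine le_trans ?_ e7
  rw [mul_pow, mul_pow, e8]
  have e9 : 1 - ε ≤ (1 - 3 * ε / 8) ^ 2 := by nlinarith [sq_nonneg ε]
  exact mul_le_mul_of_nonneg_right (mul_le_mul_of_nonneg_right e9 (Real.exp_pos _).le)
    (sq_nonneg F)

/-- Some column of an approximation of `(1 - κ A) ^ M` has large overlap with `Ψ`, if the free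
energy `log Tr exp X`, `X = -2 κ M A`, minus `⟨Ψ, X Ψ⟩`, is at most `kap`. -/
theorem overW [Nonempty n] (U : Matrix n n ℂ) (hU : Uᴴ * U = 1) (hU' : U * Uᴴ = 1) (lam : n → ℝ)
    (A X : Matrix n n ℂ) (hA : A = U * Matrix.diagonal (fun j => ((lam j : ℝ) : ℂ)) * Uᴴ)
    (hX : X.IsHermitian) (κ θ : ℝ) (M : ℕ)
    (hdec : (1 : Matrix n n ℂ) - (κ : ℂ) • A =
      U * Matrix.diagonal (fun j => ((1 - κ * lam j : ℝ) : ℂ)) * Uᴴ)
    (hθ : θ ≤ 1 / 2) (hl : ∀ j, |κ * lam j| ≤ θ)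
    (hKX : ((2 * κ * M : ℝ) : ℂ) • A = -X) (K0 : Matrix n n ℂ) (δ' : ℝ) (hδ' : 0 ≤ δ')
    (hfr : fr2 (K0 - (1 - (κ : ℂ) • A) ^ M) ≤ δ' ^ 2 * ∑ j, (1 - κ * lam j) ^ (2 * M))
    (Ψ : n → ℂ) (hΨ : normSq Ψ = 1) (kap ε : ℝ) (hk : 0 ≤ kap) (hε : 0 < ε) (hε1 : ε ≤ 1)
    (hkap : Real.log (NormedSpace.exp X).trace.re - qf X Ψ ≤ kap)
    (hδe : δ' ≤ ε * Real.exp (-(kap / 2)) / 8) (hMθ : 2 * M * θ ^ 2 ≤ ε / 8) :
    ∃ t, 0 < normSq (fun s => K0 s t) ∧
      (1 - ε) * Real.exp (-kap) * normSq (fun s => K0 s t) ≤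
        ‖PP.ip Ψ (fun s => K0 s t)‖ ^ 2 := by
  obtain ⟨w, hw⟩ : ∃ w : n → ℝ, w = fun j => (1 - κ * lam j) ^ (2 * M) := ⟨_, rfl⟩
  have hl1 : ∀ j, 0 < 1 - κ * lam j := fun j => by
    have := (abs_le.1 (hl j)).2
    linarith
  have hw0 : ∀ j, 0 < w j := fun j => by rw [hw]; exact pow_pos (hl1 j) _
  obtain ⟨W, hW⟩ : ∃ W, W = ∑ j, w j := ⟨_, rfl⟩
  have hW0 : 0 < W := by rw [hW]; exact Finset.sum_pos (fun j _ => hw0 j) Finset.univ_nonempty
  have hWsum : ∑ j, (1 - κ * lam j) ^ (2 * M) = W := by rw [hW, hw]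
  rw [hWsum] at hfr
  obtain ⟨V, hV⟩ : ∃ V, V = Real.sqrt W := ⟨_, rfl⟩
  have hV0 : 0 < V := by rw [hV]; exact Real.sqrt_pos.2 hW0
  have hVsq : V ^ 2 = W := by rw [hV]; exact Real.sq_sqrt hW0.le
  -- the trace of the exponential
  have hx : ∀ j, qf X (fun s => U s j) = -(2 * κ * M * lam j) := by
    intro j
    have h1 : qf (-X) (fun s => U s j) = 2 * κ * M * lam j := by
      rw [← hKX, qf_smul', hA, qf_diag_col U hU]
    rw [Pool.Agent.N692.TP.qf_neg] at h1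
    linarith
  have hWT : W ≤ (NormedSpace.exp X).trace.re := by
    rw [hW, ← sum_qf U _ hU']
    refine Finset.sum_le_sum fun j _ => ?_
    refine le_trans ?_ (Pool.Agent.N692.TP.pbMain n X hX _ (col_unit U hU j)).1
    rw [hx j, hw]
    have h1 : 1 - κ * lam j ≤ Real.exp (-(κ * lam j)) := by
      have := Real.add_one_le_exp (-(κ * lam j))
      linarith
    refine (pow_le_pow_left₀ (hl1 j).le h1 _).trans (le_of_eq ?_)
    rw [← Real.exp_nat_mul]
    congr 1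
    push_cast
    ring
  have hWexp : W ≤ Real.exp (kap + qf X Ψ) := by
    have h1 : Real.log W ≤ kap + qf X Ψ := by
      have := Real.log_le_log hW0 hWT
      linarith
    rw [← Real.exp_log hW0]
    exact Real.exp_le_exp.2 h1
  -- the power applied to the vector
  obtain ⟨G, hG⟩ : ∃ G, G = ((1 : Matrix n n ℂ) - (κ : ℂ) • A) ^ M := ⟨_, rfl⟩
  rw [← hG] at hfr
  have hGd : G = U * Matrix.diagonal (fun j => (((1 - κ * lam j) ^ M : ℝ) : ℂ)) * Uᴴ := by
    rw [hG, hdec]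
    have := diag_pow U hU hU' (fun j => 1 - κ * lam j) M
    simpa using this
  have hGh : Gᴴ = G := by rw [hGd]; exact dia_herm U _
  have hGG : Gᴴ * G = U * Matrix.diagonal (fun j => ((w j : ℝ) : ℂ)) * Uᴴ := by
    rw [hGh, hGd, dia_mul U hU]
    congr 3
    funext j
    rw [hw]
    simp only []
    rw [← pow_add, two_mul]
  obtain ⟨c, hc⟩ : ∃ c : n → ℝ, c = fun j => ‖(Uᴴ *ᵥ Ψ) j‖ ^ 2 := ⟨_, rfl⟩
  have hc0 : ∀ j, 0 ≤ c j := fun j => by rw [hc]; positivity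
  have hc1 : ∑ j, c j = 1 := by
    have h1 := Pool.Agent.N692.TP.qf_diag U (fun _ => 1) Ψ
    have h2 : Matrix.diagonal (fun _ : n => ((1 : ℝ) : ℂ)) = (1 : Matrix n n ℂ) := by
      rw [Complex.ofReal_one, Matrix.diagonal_one]
    rw [h2, mul_one, hU'] at h1
    have h3 : qf (1 : Matrix n n ℂ) Ψ = 1 := by
      unfold qf
      rw [Matrix.one_mulVec, Pool.Agent.N134.TP.Col.ip_self, hΨ, Complex.ofReal_re]
    rw [h3] at h1
    rw [hc]
    simpa using h1.symm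
  have hnG : nr (Gᴴ *ᵥ Ψ) ^ 2 = ∑ j, c j * w j := by
    have h1 := Pool.Agent.N692.TP.qf_diag U w Ψ
    rw [← hGG] at h1
    have h2 := Pool.Agent.N692.TP.qf_adj G Ψ
    rw [hGh, nr_sq]
    rw [h2] at h1
    rw [hc]
    exact h1
  have hlow : Real.exp (qf X Ψ - 4 * M * θ ^ 2) ≤ nr (Gᴴ *ᵥ Ψ) ^ 2 := by
    rw [hnG]
    have hAΨ : qf A Ψ = ∑ j, c j * lam j := by
      rw [hA, hc]
      exact Pool.Agent.N692.TP.qf_diag U lam Ψ
    have hXΨ : qf X Ψ = -(2 * κ * M * ∑ j, c j * lam j) := by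
      have h1 : qf (-X) Ψ = 2 * κ * M * ∑ j, c j * lam j := by
        rw [← hKX, qf_smul', hAΨ]
      rw [Pool.Agent.N692.TP.qf_neg] at h1
      linarith
    have h1 : ∀ j, Real.exp (-(2 * κ * M * lam j) - 4 * M * θ ^ 2) ≤ w j := by
      intro j
      have h2 := log_one_sub_ge (hl j) hθ
      have h3 : -(2 * κ * M * lam j) - 4 * M * θ ^ 2 ≤ Real.log (w j) := by
        have e : Real.log (w j) = (2 * M : ℕ) * Real.log (1 - κ * lam j) := by
          rw [hw]; exact Real.log_pow _ _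
        rw [e]
        push_cast
        have h4 : (0 : ℝ) ≤ 2 * M := by positivity
        have h5 := mul_le_mul_of_nonneg_left h2 h4
        have h6 : 2 * (M : ℝ) * (-(κ * lam j) - 2 * θ ^ 2) =
          -(2 * κ * M * lam j) - 4 * M * θ ^ 2 := by ring
        linarith
      rw [← Real.exp_log (hw0 j)]
      exact Real.exp_le_exp.2 h3
    have h4 := convexOn_exp.map_sum_le (t := Finset.univ) (w := c)
      (p := fun j => -(2 * κ * M * lam j) - 4 * M * θ ^ 2)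
      (fun j _ => hc0 j) hc1 (fun j _ => Set.mem_univ _)
    simp only [smul_eq_mul] at h4
    have h5 : ∑ j, c j * (-(2 * κ * M * lam j) - 4 * M * θ ^ 2) = qf X Ψ - 4 * M * θ ^ 2 := by
      rw [hXΨ]
      simp only [mul_sub]
      rw [Finset.sum_sub_distrib, ← Finset.sum_mul, hc1, one_mul, Finset.mul_sum,
        ← Finset.sum_neg_distrib]
      congr 1
      refine Finset.sum_congr rfl fun j _ => ?_
      ring
    rw [h5] at h4
    refine h4.trans (Finset.sum_le_sum fun j _ => ?_)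
    exact mul_le_mul_of_nonneg_left (h1 j) (hc0 j)
  obtain ⟨E, hE⟩ : ∃ E : ℝ, E = Real.exp (-(kap / 2)) := ⟨_, rfl⟩
  obtain ⟨x, hxx⟩ : ∃ x : ℝ, x = 2 * M * θ ^ 2 := ⟨_, rfl⟩
  have hGlow : V * (E * Real.exp (-x)) ≤ nr (Gᴴ *ᵥ Ψ) := by
    refine le_of_sq_le_sq ?_ (nr_nonneg _)
    refine le_trans ?_ hlow
    rw [mul_pow, hVsq, mul_pow, hE, ← Real.exp_nat_mul, ← Real.exp_nat_mul, ← Real.exp_add]
    refine (mul_le_mul_of_nonneg_right hWexp (Real.exp_pos _).le).trans (le_of_eq ?_)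
    rw [← Real.exp_add, hxx]
    congr 1
    push_cast
    ring
  have hfr' : fr (K0 - G) ≤ δ' * V := by
    refine le_of_sq_le_sq ?_ (by positivity)
    rw [fr_sq, mul_pow, hVsq]
    exact hfr
  have hfrG : fr G ≤ V := by
    refine le_of_sq_le_sq ?_ hV0.le
    rw [fr_sq, hVsq, ← sum_normSq]
    have h1 : ∑ t, normSq (fun s => G s t) = (Gᴴ * G).trace.re := by
      have h2 := Pool.Agent.N134.TP.Col.sum_ip G 1
      rw [mul_one] at h2
      rw [← h2, Complex.re_sum]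
      refine Finset.sum_congr rfl fun t _ => ?_
      rw [Matrix.one_mulVec, Pool.Agent.N134.TP.Col.ip_self, Complex.ofReal_re]
    rw [h1, hGG, trace_diag U hU, hW]
    simp
  have hN : nr (Gᴴ *ᵥ Ψ) ≤ nr (K0ᴴ *ᵥ Ψ) + δ' * V := by
    have h5 : Gᴴ *ᵥ Ψ = K0ᴴ *ᵥ Ψ + (-1 : ℂ) • ((K0 - G)ᴴ *ᵥ Ψ) := by
      rw [Matrix.conjTranspose_sub, Matrix.sub_mulVec, neg_smul, one_smul]
      abel
    have h6 := nr_add (K0ᴴ *ᵥ Ψ) ((-1 : ℂ) • ((K0 - G)ᴴ *ᵥ Ψ))
    rw [← h5, nr_smul] at h6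
    simp only [norm_neg, norm_one, one_mul] at h6
    have h7 := (nr_adj_le (K0 - G) Ψ hΨ).trans hfr'
    linarith
  have hF : fr K0 ≤ V + δ' * V := by
    have h1 := fr_add G (K0 - G)
    rw [add_sub_cancel] at h1
    linarith
  have hE1 : E ≤ 1 := by
    rw [hE]
    exact Real.exp_le_one_iff.2 (by linarith)
  have hfin := over_num hV0 hε hε1 hE hδ' (by rw [hE]; exact hδe) hE1 (by rw [hxx]; exact hMθ)
    (nr_nonneg _) hGlow hN hF (fr_nonneg _)
  rw [fr_sq, ← sum_ip_col, ← sum_normSq] at hfin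
  refine avg (fun t => ‖PP.ip Ψ (fun s => K0 s t)‖ ^ 2) (fun t => normSq (fun s => K0 s t))
    ((1 - ε) * Real.exp (-kap)) (∑ t, ‖PP.ip Ψ (fun s => K0 s t)‖ ^ 2) ?_ ?_ ?_ le_rfl hfin
  · intro t
    exact Finset.sum_nonneg fun _ _ => by positivity
  · intro t ht
    have h1 : nr (fun s => K0 s t) = 0 := by
      have := nr_sq (fun s => K0 s t)
      rw [ht] at this
      exact pow_eq_zero_iff two_ne_zero |>.1 this
    have h2 := ip_le Ψ (fun s => K0 s t)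
    rw [h1, mul_zero] at h2
    have h3 : ‖PP.ip Ψ (fun s => K0 s t)‖ = 0 := le_antisymm h2 (norm_nonneg _)
    rw [h3]
    norm_num
  · rw [sum_ip_col]
    have h1 : 0 < nr (K0ᴴ *ᵥ Ψ) := by
      have a0 : 0 < V * E := mul_pos hV0 (by rw [hE]; exact Real.exp_pos _)
      have a1 : 7 / 8 ≤ Real.exp (-x) := by
        have := Real.add_one_le_exp (-x)
        rw [← hxx] at hMθ
        linarith
      have a2 : V * E * (7 / 8) ≤ V * (E * Real.exp (-x)) := by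
        rw [← mul_assoc]
        exact mul_le_mul_of_nonneg_left a1 a0.le
      have a3 : δ' * V ≤ V * E * (1 / 8) := by
        have : δ' ≤ E * (1 / 8) := by
          rw [← hE] at hδe
          have h2 : ε * E ≤ 1 * E := mul_le_mul_of_nonneg_right hε1 (by rw [hE]; exact (Real.exp_pos _).le)
          linarith
        calc δ' * V ≤ E * (1 / 8) * V := mul_le_mul_of_nonneg_right this hV0.le
          _ = V * E * (1 / 8) := by ring
      linarith
    positivity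

end overw

end Pool.Agent.U753.MG
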