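import Pool.Agent.U753.MK.LowX
import Pool.Agent.U753.MG.NetS
import Pool.Agent.U753.MG.OverW

/-!
# PEPS with large overlap with a vector, in terms of a free energy
-/

set_option autoImplicit false

open scoped BigOperators Matrix InnerProductSpace
open Finset Pool.Agent.TH235.PP Pool.Agent.TH235.PQ

namespace Pool.Agent.U753.MG

open Pool.Agent.N658.TP Pool.Agent.N674.TP Pool.Agent.U753.FE Pool.Agent.U753.MK

open scoped Matrix.Norms.L2Operator in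
lemma norm_sumS {d R L : ℕ} [NeZero L] (h : Site L → BoxOp d R) {J : ℝ}
    (hJ : ∀ u : Site L, ‖term (h u) u‖ ≤ J) : ‖∑ u : Site L, term (h u) u‖ ≤ (L : ℝ) ^ 2 * J := by
  refine (norm_sum_le _ _).trans ?_
  calc ∑ u : Site L, ‖term (h u) u‖ ≤ ∑ _u : Site L, J := Finset.sum_le_sum fun u _ => hJ u
    _ = (L : ℝ) ^ 2 * J := by
        rw [Finset.sum_const, Finset.card_univ, Fintype.card_prod, ZMod.card, nsmul_eq_mul]
        push_cast
        ring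

open scoped Matrix.Norms.L2Operator in
/-- Let `X = -2 ∑ u, h u`, `h u` acting on the box of side `R' + 1` with corner `u`, of norm at
most `J'`, and let `Ψ` be a unit vector with `log Tr exp X - ⟨Ψ, X Ψ⟩ ≤ kap`. Some PEPS of bond
dimension `exp (C (R' + 1) ^ 24 (J' + kap + log L + log (1 / ε)))` has squared overlap at least
`(1 - ε) exp (-kap)` with `Ψ`. -/
theorem overX (d : ℕ) (hd : 2 ≤ d) : ∃ C : ℝ, 0 < C ∧
    ∀ (R' L : ℕ) [NeZero L], 2 ≤ L → R' + 1 ≤ L → ∀ (J' kap ε : ℝ), 1 ≤ J' → 0 ≤ kap →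
    0 < ε → ε ≤ 1 →
    ∀ h : Site L → BoxOp d (R' + 1), (∀ u : Site L, ‖term (h u) u‖ ≤ J') →
    ∀ X : TorOp d L, X.IsHermitian → ((2 : ℝ) : ℂ) • (∑ u : Site L, term (h u) u) = -X →
    ∀ Ψ : (Site L → Fin d) → ℂ, normSq Ψ = 1 →
    Real.log (NormedSpace.exp X).trace.re - (ip Ψ (X *ᵥ Ψ)).re ≤ kap →
    ∃ (D : ℕ) (ψ : (Site L → Fin d) → ℂ),
      (D : ℝ) ≤ Real.exp (C * ((R' : ℝ) + 1) ^ 24 *
        (J' + kap + Real.log L + Real.log (1 / ε))) ∧
      IsPEPS D ψ ∧ normSq ψ = 1 ∧ (1 - ε) * Real.exp (-kap) ≤ ‖ip Ψ ψ‖ ^ 2 := by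
  have h1 : StmFrob := Pool.Agent.N79.TP.frob
  have hlogd : 0 < Real.log d := Real.log_pos (by exact_mod_cast hd)
  refine ⟨2000000 * Real.log d, by positivity, ?_⟩
  intro R' L _ hL hRL J' kap ε hJ1 hkap0 hε0 hε1 h hnT X hX hKX0 Ψ hΨ hkap
  obtain ⟨δ, hδe⟩ : ∃ δ : ℝ, δ = ε * Real.exp (-(kap / 2)) := ⟨_, rfl⟩
  have hek1 : Real.exp (-(kap / 2)) ≤ 1 := Real.exp_le_one_iff.2 (by linarith)
  have hδ : 0 < δ := by rw [hδe]; positivity
  have hδε : δ ≤ ε := by rw [hδe]; exact mul_le_of_le_one_right hε0.le hek1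
  have hδ1 : δ ≤ 1 := hδε.trans hε1
  obtain ⟨K, hK⟩ : ∃ K : ℕ, K = (R' + 1) ^ 4 := ⟨_, rfl⟩
  have hK1 : 1 ≤ K := by rw [hK]; exact Nat.one_le_pow _ _ (Nat.succ_pos _)
  have hK1' : (1 : ℝ) ≤ K := by exact_mod_cast hK1
  obtain ⟨c1, hc1⟩ : ∃ c1 : ℝ, c1 = 100 * ((K : ℝ) + 1) ^ 2 := ⟨_, rfl⟩
  obtain ⟨c2, hc2⟩ : ∃ c2 : ℝ, c2 = 10 * (K : ℝ) * ((K : ℝ) + 1) ^ 2 := ⟨_, rfl⟩
  have hc10 : 0 ≤ c1 := by rw [hc1]; positivity
  have hc20 : 0 < c2 := by rw [hc2]; positivity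
  obtain ⟨v, hv⟩ : ∃ v : ℝ, v = Real.log (48 * J') := ⟨_, rfl⟩
  have hv0 : 0 ≤ v := by rw [hv]; exact Real.log_nonneg (by linarith)
  obtain ⟨β, hβe⟩ : ∃ β : ℝ, β = 1 := ⟨_, rfl⟩
  have hβ : 1 ≤ β := hβe.ge
  have hKX : ((2 * β : ℝ) : ℂ) • (∑ u : Site L, term (h u) u) = -X := by
    rw [hβe, mul_one]; exact hKX0
  have hβ0 : 0 < β := by linarith
  have hL2 : (2 : ℝ) ≤ L := by exact_mod_cast hL
  obtain ⟨lam, hlam⟩ : ∃ lam, lam = Real.log L := ⟨_, rfl⟩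
  have hlam0 : 0 ≤ lam := by rw [hlam]; exact Real.log_nonneg (by linarith)
  obtain ⟨T, hT⟩ : ∃ T, T = Real.log (1 / δ) := ⟨_, rfl⟩
  have hT0 : 0 ≤ T := by
    rw [hT]
    exact Real.log_nonneg (by rw [le_div_iff₀ hδ]; linarith)
  have hTk : T = Real.log (1 / ε) + kap / 2 := by
    rw [hT, hδe, one_div, mul_inv, Real.log_mul (by positivity) (by positivity), ← Real.exp_neg,
      Real.log_exp, neg_neg, one_div]
  obtain ⟨δ', hδ'⟩ : ∃ δ' : ℝ, δ' = δ / (48 * J') := ⟨_, rfl⟩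
  have hδ'0 : 0 < δ' := by rw [hδ']; positivity
  have hδ'8 : δ' ≤ δ / 8 := by
    rw [hδ', div_le_div_iff₀ (by positivity) (by norm_num)]
    exact mul_le_mul_of_nonneg_left (by linarith) hδ.le
  have hδ'2 : δ' ≤ 1 / 2 := by linarith
  have hlogδ : Real.exp (-(v + T)) = δ' := by
    rw [hv, hT, ← Real.log_mul (by positivity) (by positivity), Real.exp_neg,
      Real.exp_log (by positivity), hδ']
    field_simp
  have hNexp : ((L ^ 2 : ℕ) : ℝ) = Real.exp (2 * lam) := by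
    rw [hlam, two_mul, Real.exp_add, Real.exp_log (by linarith)]; push_cast; ring
  obtain ⟨N, hN⟩ : ∃ N : ℝ, N = ((L ^ 2 : ℕ) : ℝ) := ⟨_, rfl⟩
  have hNL : N = (L : ℝ) ^ 2 := by rw [hN]; push_cast; ring
  have hN1 : (1 : ℝ) ≤ N := by
    rw [hN, hNexp]; exact Real.one_le_exp (by linarith)
  have hB0' : 0 ≤ β * J' := by positivity
  obtain ⟨q, hM1, hM2, hM3⟩ := par_q (β * J') N (v + T) hB0' hN1
  rw [hlogδ] at hM3
  have hM0 : (0 : ℝ) < tm q := by linarith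
  obtain ⟨r, hr1, hr2⟩ := par_r c1 c2 (1 + β * J') (2 * lam + (v + T) + 4) hc20 (by positivity)
  obtain ⟨κ, hκ⟩ : ∃ κ : ℝ, κ = β / tm q := ⟨_, rfl⟩
  have hκ0 : 0 < κ := by rw [hκ]; positivity
  have hκM : κ * tm q = β := by rw [hκ]; field_simp
  obtain ⟨y0, hy0⟩ : ∃ y0 : ℝ, y0 = κ * J' := ⟨_, rfl⟩
  have hy00 : 0 ≤ y0 := by rw [hy0]; positivity
  have hNy : N * y0 ≤ 1 / 80 := by
    have : N * y0 = N * (β * J') / tm q := by rw [hy0, hκ]; ring
    rw [this]; exact hM2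
  have hMN : (tm q : ℝ) * (N * y0) ^ 2 ≤ δ' / 16 := by
    have : (tm q : ℝ) * (N * y0) ^ 2 = (N * (β * J')) ^ 2 / tm q := by
      rw [hy0, hκ]; field_simp
    rw [this]; exact hM3
  have hMy : (tm q : ℝ) * y0 = β * J' := by rw [hy0, ← hκM]; ring
  have hrr : N * Real.exp (100 * (K + 1) ^ 2 * (1 + tm q * y0) -
      r / (10 * K * (K + 1) ^ 2)) ≤ δ' / 24 := by
    rw [hMy, hN, hNexp, ← Real.exp_add]
    have e1 : Real.exp (2 * lam + (100 * (K + 1) ^ 2 * (1 + β * J') -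
        r / (10 * K * (K + 1) ^ 2))) ≤ Real.exp (-(v + T) + -4) := by
      apply Real.exp_le_exp.2
      rw [hc1, hc2] at hr1
      linarith
    refine e1.trans ?_
    rw [Real.exp_add, hlogδ, div_eq_mul_one_div]
    exact mul_le_mul_of_nonneg_left exp_four hδ'0.le
  have hy80 : y0 ≤ 1 / 80 := (le_mul_of_one_le_left hy00 hN1).trans hNy
  -- the matrix
  have : Nonempty (Site L → Fin d) := ⟨fun _ => ⟨0, by omega⟩⟩
  obtain ⟨HH, hHH⟩ : ∃ HH : TorOp d L, HH = ∑ u : Site L, term (h u) u := ⟨_, rfl⟩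
  have hH : HH.IsHermitian := by
    have e1 : HH = ((-(1 / 2) : ℝ) : ℂ) • X := by
      have e2 : X = -(((2 : ℝ) : ℂ) • HH) := by rw [hHH, hKX0, neg_neg]
      rw [e2, smul_neg, smul_smul, ← neg_smul]
      have e3 : -(((-(1 / 2) : ℝ) : ℂ) * ((2 : ℝ) : ℂ)) = 1 := by
        push_cast
        norm_num
      rw [e3, one_smul]
    rw [e1]
    exact Pool.Agent.N692.TP.herm_smul hX _
  have hHn : ‖HH‖ ≤ (L : ℝ) ^ 2 * J' := by rw [hHH]; exact norm_sumS h hnT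
  rw [← hHH] at hKX
  have heig : ∀ j, |hH.eigenvalues j| ≤ (L : ℝ) ^ 2 * J' := fun j => (eig_abs _ hH j).trans hHn
  have hk0 : ∀ j, |κ * hH.eigenvalues j| ≤ N * y0 := by
    intro j
    rw [abs_mul, abs_of_pos hκ0]
    refine (mul_le_mul_of_nonneg_left (heig j) hκ0.le).trans (le_of_eq ?_)
    rw [hNL, hy0]; ring
  have hl : ∀ j, 3 / 4 ≤ 1 - κ * hH.eigenvalues j := fun j => by
    have := (abs_le.1 ((hk0 j).trans hNy)).2
    linarith
  obtain ⟨e⟩ : Nonempty (Fin (L ^ 2) ≃ Site L) := by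
    rw [← Fintype.card_eq, Fintype.card_fin, card_site]
  obtain ⟨y, hy⟩ : ∃ y : Fin (L ^ 2) → TorOp d L,
    y = fun b => ((-κ : ℝ) : ℂ) • term (h (e b)) (e b) := ⟨_, rfl⟩
  have hyn : ∀ b, ‖y b‖ ≤ y0 := by
    intro b
    rw [hy]
    simp only []
    rw [norm_smul, Complex.norm_real, Real.norm_eq_abs, abs_neg, abs_of_pos hκ0, hy0]
    exact mul_le_mul_of_nonneg_left (hnT (e b)) hκ0.le
  have hG : 1 + ∑ b, y b = 1 - (κ : ℂ) • HH := by
    rw [hy]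
    simp only []
    rw [← Finset.smul_sum]
    have : ∑ b, term (h (e b)) (e b) = HH := by
      rw [hHH]
      exact e.sum_comp (fun u => term (h u) u)
    rw [this]
    push_cast
    rw [neg_smul, sub_eq_add_neg]
  have hKc : ∀ b, open Classical in (univ.filter fun b' => adjR R' e b b').card ≤ K := by
    intro b
    rw [hK]
    exact adjR_card e b
  have hfr := h1 (Site L → Fin d) HH hH κ hl (L ^ 2) (adjR R' e) K (adjR_symm e)
    (adjR_irr e) hK1 hKc q r y hG y0 hy00 hy80 hyn (by rw [← hN]; linarith)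
    (by
      rw [← hN]
      have : 2 * (tm q : ℝ) * (N * y0) ^ 2 = 2 * (tm q * (N * y0) ^ 2) := by ring
      rw [this]; linarith)
    (by rw [← hN]; linarith)
  rw [← hN] at hfr
  obtain ⟨A1, hA1⟩ : ∃ A1 : TorOp d L, A1 = KA (adjR R' e) q y r := ⟨_, rfl⟩
  rw [← hA1] at hfr
  have hl0 : ∀ j, 0 < 1 - κ * hH.eigenvalues j := fun j => by linarith [hl j]
  have hS0 : 0 < ∑ j, (1 - κ * hH.eigenvalues j) ^ (2 * tm q) :=
    Finset.sum_pos (fun j _ => pow_pos (hl0 j) _) Finset.univ_nonempty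
  have hfr2 : fr2 (A1 - (1 - (κ : ℂ) • HH) ^ tm q) ≤
      δ' ^ 2 * ∑ j, (1 - κ * hH.eigenvalues j) ^ (2 * tm q) := by
    refine hfr.trans (mul_le_mul_of_nonneg_right ?_ hS0.le)
    have hn1 : 0 ≤ N * Real.exp (100 * (K + 1) ^ 2 * (1 + tm q * y0) -
      r / (10 * K * (K + 1) ^ 2)) := by positivity
    have hn2 : 0 ≤ (tm q : ℝ) * (N * y0) ^ 2 := by positivity
    refine pow_le_pow_left₀ (by linarith) (by linarith) 2
  obtain ⟨U, hU, hU', hAd, hdec⟩ := Pool.Agent.N134.TP.Col.spec_dec' HH hH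
  have hKX' : ((2 * κ * tm q : ℝ) : ℂ) • HH = -X := by
    rw [← hKX]
    congr 2
    rw [← hκM]; ring
  obtain ⟨t, ht0, ht⟩ := overW U hU hU' hH.eigenvalues HH X hAd hX κ (N * y0) (tm q) (hdec κ)
    (by linarith) hk0 hKX' A1 δ' hδ'0.le hfr2 Ψ hΨ kap ε hkap0 hε0 hε1 hkap
    (by rw [← hδe]; exact hδ'8)
    (by
      have : 2 * (tm q : ℝ) * (N * y0) ^ 2 = 2 * (tm q * (N * y0) ^ 2) := by ring
      rw [this]; linarith)
  obtain ⟨A, hA⟩ := peps_KAS reg hRL (K := Fin 1)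
    (fun x i _ _ _ _ => if i = t x then (1 : ℂ) else 0) ((-κ : ℝ) : ℂ) h e q r
  rw [basis_contract] at hA
  have hcol : A1 *ᵥ Pi.single t 1 = fun s => A1 s t := by
    funext s
    rw [Matrix.mulVec_single_one]
    rfl
  have hx : (fun s => A1 s t) = contract A := by
    rw [← hcol, hA1, hy]
    exact hA
  rw [hx] at ht0 ht
  have hpeps : IsPEPS (Fintype.card (Fin 1 × (Fin (2 * R' + 1) × Fin (2 * R' + 1) →
      LabT d (R' + 1) q r))) (contract A) := isPEPS_contract A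
  have hnr : 0 < nr (contract A) := by
    rcases (nr_nonneg (contract A)).lt_or_eq with h5 | h5
    · exact h5
    · exfalso
      have := nr_sq (contract A)
      rw [← h5] at this
      rw [← this] at ht0
      simp at ht0
  have hnn : ‖((nr (contract A))⁻¹ : ℂ)‖ = (nr (contract A))⁻¹ := by
    rw [norm_inv, Complex.norm_real, Real.norm_eq_abs, abs_of_pos hnr]
  refine ⟨_, ((nr (contract A))⁻¹ : ℂ) • contract A, ?_, hpeps.smul _, ?_, ?_⟩
  · -- the bond dimension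
    refine (card_bdL (d := d) (R' := R') q r).trans (Real.exp_le_exp.2 ?_)
    rw [← hlam]
    rw [hβe, one_mul] at hr2
    refine (num_X lam T v J' c1 c2 r (Real.log d) d R' K hd hlam0 hT0 hJ1 hv hK hc1 hc2 rfl
      hr2).trans ?_
    refine mul_le_mul_of_nonneg_left ?_ (by positivity)
    rw [hTk]
    linarith
  · rw [← nr_sq, nr_smul, hnn, inv_mul_cancel₀ hnr.ne', one_pow]
  · rw [ip_smul_right, norm_mul, hnn, mul_pow, inv_pow]
    rw [← nr_sq] at ht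
    have e6 : 0 < nr (contract A) ^ 2 := by positivity
    rw [le_inv_mul_iff₀ e6, mul_comm]
    exact ht

end Pool.Agent.U753.MG
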