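import Pool.Agent.U753.MG.Ord
import Pool.Agent.U753.MG.Over
import Pool.Agent.N712.TP.ReachF

/-!
# Project MG: global PEPS approximation in terms of conditional mutual informations
-/

set_option autoImplicit false

open scoped BigOperators Matrix

noncomputable section

namespace Pool.Agent.U753.MG

open Pool.Agent.TH235.PP (BoxOp TorOp Site term ham sh normSq ip IsPEPS)
open Pool.Agent.U753.MK Pool.Agent.N658.TP

/-- the energy of the interaction is nonnegative -/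
lemma kap_nonneg {n : Type} [Fintype n] [DecidableEq n] [Nonempty n] (H : Matrix n n ℂ)
    (hH : H.IsHermitian) (Ψ : n → ℂ) (hΨ : normSq Ψ = 1) {κ : ℝ}
    (h1 : Real.log (NormedSpace.exp (-H)).trace.re ≤ 0) (h2 : (ip Ψ (H *ᵥ Ψ)).re ≤ κ) : 0 ≤ κ := by
  obtain ⟨h3, h4⟩ := Pool.Agent.N692.TP.pbMain n (-H) hH.neg Ψ hΨ
  have h5 := Real.log_le_log (Real.exp_pos _) (h3.trans h4)
  rw [Real.log_exp, Pool.Agent.N692.TP.qf_neg] at h5
  have h6 : qf H Ψ = (ip Ψ (H *ᵥ Ψ)).re := rfl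
  linarith

lemma herm_term {d R L : ℕ} [NeZero L] (h : Site L → BoxOp d R) (hh : ∀ u, (h u).IsHermitian) :
    (∑ u, term (h u) u : TorOp d L).IsHermitian := by
  unfold Matrix.IsHermitian
  rw [Matrix.conjTranspose_sum]
  exact Finset.sum_congr rfl fun u _ => Pool.Agent.TH235.PP.term_herm (h u) (hh u) u

/-- the sum of the conditional mutual informations is nonnegative -/
theorem cmi_nonneg (hSu : StmSup) (d L : ℕ) [NeZero L] (hd : 2 ≤ d) (b : ℕ) (hb : 2 * b + 1 ≤ L)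
    (σ : Site L → ℕ) (hσ : Function.Injective σ) (Ψ : (Site L → Fin d) → ℂ) (hΨ : normSq Ψ = 1) :
    0 ≤ ∑ v, cmiO σ Ψ b v := by
  have : Nonempty (Site L → Fin d) := ⟨fun _ => ⟨0, by omega⟩⟩
  by_contra hcon
  push Not at hcon
  obtain ⟨η, hη⟩ : ∃ η, η = ∑ v, cmiO σ Ψ b v := ⟨_, rfl⟩
  rw [← hη] at hcon
  have hL : (0 : ℝ) < L := by exact_mod_cast Nat.pos_of_ne_zero (NeZero.ne L)
  obtain ⟨δ, hδ⟩ : ∃ δ : ℝ, δ = min (1 / 2) (-η / (4 * (L : ℝ) ^ 2)) := ⟨_, rfl⟩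
  have hδ0 : 0 < δ := by
    rw [hδ]
    exact lt_min (by norm_num) (div_pos (by linarith) (by positivity))
  obtain ⟨h, h1, -, h3, h4⟩ := intO hSu d L hd b hb σ hσ Ψ hΨ δ hδ0 (by rw [hδ]; exact min_le_left _ _)
  rw [← hη] at h4
  have h5 := kap_nonneg _ (herm_term h h1) Ψ hΨ h3 h4
  have h6 : δ ≤ -η / (4 * (L : ℝ) ^ 2) := by rw [hδ]; exact min_le_right _ _
  have h7 : 2 * δ * (L : ℝ) ^ 2 ≤ -η / 2 := by
    rw [le_div_iff₀ (by positivity)] at h6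
    linarith
  linarith

open scoped Matrix.Norms.L2Operator in
/-- **Global PEPS approximation.** -/
theorem general (hSu : StmSup) (d : ℕ) (hd : 2 ≤ d) : ∃ C : ℝ, 0 < C ∧
    ∀ (L : ℕ) [NeZero L] (b : ℕ), 2 ≤ L → 2 * b + 1 ≤ L →
    ∀ σ : Site L → ℕ, Function.Injective σ → ∀ Ψ : (Site L → Fin d) → ℂ, normSq Ψ = 1 →
    ∀ ε : ℝ, 0 < ε → ε ≤ 1 → ∃ (D : ℕ) (φ : (Site L → Fin d) → ℂ),
      (D : ℝ) ≤ Real.exp (C * (2 * (b : ℝ) + 1) ^ 24 *
        ((b : ℝ) ^ 2 + ∑ v, cmiO σ Ψ b v + Real.log L + Real.log (1 / ε))) ∧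
      IsPEPS D φ ∧ normSq φ = 1 ∧
      (1 - ε) * Real.exp (-∑ v, cmiO σ Ψ b v) ≤ ‖ip Ψ φ‖ ^ 2 := by
  obtain ⟨C, hC, hov⟩ := overX d hd
  have hld : 0 < Real.log d := Real.log_pos (by exact_mod_cast hd)
  refine ⟨C * (8 * Real.log d + 10), by positivity, ?_⟩
  intro L _ b hL hb σ hσ Ψ hΨ ε hε hε1
  have : Nonempty (Site L → Fin d) := ⟨fun _ => ⟨0, by omega⟩⟩
  have hη0 := cmi_nonneg hSu d L hd b hb σ hσ Ψ hΨ
  obtain ⟨η, hη⟩ : ∃ η, η = ∑ v, cmiO σ Ψ b v := ⟨_, rfl⟩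
  rw [← hη] at hη0 ⊢
  have hL2 : (2 : ℝ) ≤ L := by exact_mod_cast hL
  have hLsq : (4 : ℝ) ≤ (L : ℝ) ^ 2 := by nlinarith
  obtain ⟨δ, hδ⟩ : ∃ δ : ℝ, δ = ε / (8 * (L : ℝ) ^ 2) := ⟨_, rfl⟩
  have hδ0 : 0 < δ := by rw [hδ]; positivity
  have hδ2 : δ ≤ 1 / 2 := by
    rw [hδ, div_le_iff₀ (by positivity)]
    linarith
  have hδL : 2 * δ * (L : ℝ) ^ 2 = ε / 4 := by
    rw [hδ]
    field_simp
    ring
  obtain ⟨h, h1, h2, h3, h4⟩ := intO hSu d L hd b hb σ hσ Ψ hΨ δ hδ0 hδ2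
  rw [← hη, hδL] at h4
  have hH := herm_term h h1
  obtain ⟨J, hJ⟩ : ∃ J : ℝ, J = 1 + ((2 * (b : ℝ) + 1) ^ 2 * Real.log d + Real.log (1 / δ)) :=
    ⟨_, rfl⟩
  have hlδ : 0 ≤ Real.log (1 / δ) := Real.log_nonneg (by rw [le_div_iff₀ hδ0]; linarith)
  have hbd : 0 ≤ (2 * (b : ℝ) + 1) ^ 2 * Real.log d := by positivity
  have hJ1 : 1 ≤ J := by rw [hJ]; linarith
  have hnT : ∀ u : Site L, ‖term (((1 / 2 : ℝ) : ℂ) • h u) u‖ ≤ J := by
    intro u
    rw [Pool.Agent.N712.TP.term_smul, norm_smul, Complex.norm_real, Real.norm_eq_abs,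
      abs_of_pos (by norm_num)]
    have := h2 u
    rw [hJ]
    linarith
  have hsum : ((2 : ℝ) : ℂ) • (∑ u : Site L, term (((1 / 2 : ℝ) : ℂ) • h u) u) =
      -(-∑ u, term (h u) u) := by
    rw [neg_neg, Finset.smul_sum]
    refine Finset.sum_congr rfl fun u _ => ?_
    rw [Pool.Agent.N712.TP.term_smul, smul_smul]
    have : ((2 : ℝ) : ℂ) * ((1 / 2 : ℝ) : ℂ) = 1 := by
      push_cast
      norm_num
    rw [this, one_smul]
  have hkap : Real.log (NormedSpace.exp (-∑ u, term (h u) u)).trace.re -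
      (ip Ψ ((-∑ u, term (h u) u) *ᵥ Ψ)).re ≤ η + ε / 4 := by
    have e1 : (ip Ψ ((-∑ u, term (h u) u) *ᵥ Ψ)).re = -(ip Ψ ((∑ u, term (h u) u) *ᵥ Ψ)).re :=
      Pool.Agent.N692.TP.qf_neg _ _
    rw [e1]
    linarith
  obtain ⟨D, φ, g1, g2, g3, g4⟩ := hov (2 * b) L hL hb J (η + ε / 4) (ε / 2) hJ1 (by positivity)
    (by positivity) (by linarith) (fun u => ((1 / 2 : ℝ) : ℂ) • h u) hnT _ hH.neg hsum Ψ hΨ hkap
  refine ⟨D, φ, ?_, g2, g3, ?_⟩
  · refine g1.trans (Real.exp_le_exp.2 ?_)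
    have e0 : (((2 * b : ℕ) : ℝ) + 1) = 2 * (b : ℝ) + 1 := by push_cast; ring
    rw [e0]
    obtain ⟨lam, hlam⟩ : ∃ lam, lam = Real.log L := ⟨_, rfl⟩
    obtain ⟨T, hT⟩ : ∃ T, T = Real.log (1 / ε) := ⟨_, rfl⟩
    have hT0 : 0 ≤ T := by
      rw [hT]
      exact Real.log_nonneg (by rw [le_div_iff₀ hε]; linarith)
    have hlam2 : Real.log 2 ≤ lam := by
      rw [hlam]
      exact Real.log_le_log (by norm_num) hL2
    have hl2 := Real.log_two_gt_d9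
    have e1 : Real.log (1 / δ) = 3 * Real.log 2 + 2 * lam + T := by
      have : 1 / δ = 2 ^ 3 * ((L : ℝ) ^ 2) * (1 / ε) := by
        rw [hδ]
        field_simp
        norm_num
      rw [this, Real.log_mul (by positivity) (by positivity),
        Real.log_mul (by positivity) (by positivity), Real.log_pow, Real.log_pow, hlam, hT]
      push_cast
      ring
    have e2 : Real.log (1 / (ε / 2)) = Real.log 2 + T := by
      have : 1 / (ε / 2) = 2 * (1 / ε) := by field_simp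
      rw [this, Real.log_mul (by norm_num) (by positivity), hT]
    have e3 : (2 * (b : ℝ) + 1) ^ 2 ≤ 8 * (b : ℝ) ^ 2 + 2 := by nlinarith [sq_nonneg (2 * (b : ℝ) - 1)]
    have e4 : (2 * (b : ℝ) + 1) ^ 2 * Real.log d ≤ (8 * (b : ℝ) ^ 2 + 2) * Real.log d :=
      mul_le_mul_of_nonneg_right e3 hld.le
    rw [hJ, e1, e2, ← hlam, ← hT]
    obtain ⟨ld, hldd⟩ : ∃ ld, ld = Real.log d := ⟨_, rfl⟩
    rw [← hldd] at e4 hld ⊢
    obtain ⟨B, hB⟩ : ∃ B, B = (b : ℝ) ^ 2 := ⟨_, rfl⟩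
    rw [← hB] at e4 ⊢
    have hB0 : 0 ≤ B := by rw [hB]; positivity
    obtain ⟨P, hP⟩ : ∃ P, P = C * (2 * (b : ℝ) + 1) ^ 24 := ⟨_, rfl⟩
    have hP0 : 0 ≤ P := by rw [hP]; positivity
    have e5 : C * (8 * ld + 10) * (2 * (b : ℝ) + 1) ^ 24 * (B + η + lam + T) =
        P * ((8 * ld + 10) * (B + η + lam + T)) := by rw [hP]; ring
    rw [e5, ← hP]
    refine mul_le_mul_of_nonneg_left ?_ hP0
    have e6 : 0 ≤ ld * η := mul_nonneg hld.le hη0
    have e7 : 0 ≤ ld * T := mul_nonneg hld.le hT0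
    have e8 : ld ≤ 2 * (ld * lam) := by
      have : 1 ≤ 2 * lam := by linarith
      have := mul_le_mul_of_nonneg_left this hld.le
      linarith
    have e9 : (8 * ld + 10) * (B + η + lam + T) =
        8 * (ld * B) + 8 * (ld * η) + 8 * (ld * lam) + 8 * (ld * T) +
          10 * B + 10 * η + 10 * lam + 10 * T := by ring
    have e10 : (8 * B + 2) * ld = 8 * (ld * B) + 2 * ld := by ring
    rw [e9]
    linarith
  · refine le_trans ?_ g4
    have e1 : Real.exp (-(η + ε / 4)) = Real.exp (-(ε / 4)) * Real.exp (-η) := by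
      rw [← Real.exp_add]
      congr 1
      ring
    rw [e1, ← mul_assoc]
    refine mul_le_mul_of_nonneg_right ?_ (Real.exp_pos _).le
    have e2 : 1 - ε / 4 ≤ Real.exp (-(ε / 4)) := by
      have := Real.add_one_le_exp (-(ε / 4))
      linarith
    have e3 : (1 - ε / 2) * (1 - ε / 4) ≤ (1 - ε / 2) * Real.exp (-(ε / 4)) :=
      mul_le_mul_of_nonneg_left e2 (by linarith)
    nlinarith [sq_nonneg ε]

end Pool.Agent.U753.MG
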