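import Pool.Agent.U329.MG.IN
import Pool.Agent.U458.MG.PT
import Pool.Agent.U194.MG.EN2
import Pool.Agent.U753.MK.HX

/-!
# Project MG: the interaction for an arbitrary order of the sites
-/

set_option autoImplicit false

open scoped BigOperators Matrix ComplexOrder
open scoped Matrix.Norms.L2Operator

noncomputable section

namespace Pool.Agent.U753.MG

open Pool.Agent.TH235.PP (BoxOp TorOp Site term ham sh normSq ip)
open Pool.Agent.U753.MK
open Pool.Agent.U329.MG (mem_near card_near card_site near_add tr exp_add_smul)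

/-- The sites before `v`, for the order of the sites of the torus given by `σ`. -/
def prev {L : ℕ} [NeZero L] (σ : Site L → ℕ) (v : Site L) : Finset (Site L) :=
  Finset.univ.filter fun w => σ w < σ v

/-- The conditional mutual information `I(v : Q | P)` in the state `Ψ`, `P` the sites before `v` at
distance at most `b` from `v` in both directions, `Q` the other sites before `v`. -/
def cmiO {d L : ℕ} [NeZero L] (σ : Site L → ℕ) (Ψ : (Site L → Fin d) → ℂ) (b : ℕ) (v : Site L) : ℝ :=
  ent Ψ (insert v (prev σ v ∩ near b v)) + ent Ψ (prev σ v) - ent Ψ (prev σ v ∩ near b v) -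
    ent Ψ (insert v (prev σ v))

lemma mem_prev {L : ℕ} [NeZero L] {σ : Site L → ℕ} {v w : Site L} : w ∈ prev σ v ↔ σ w < σ v := by
  simp [prev]

lemma not_mem_prev {L : ℕ} [NeZero L] {σ : Site L → ℕ} (v : Site L) : v ∉ prev σ v := fun h =>
  lt_irrefl _ (mem_prev.1 h)

/-- telescoping -/
theorem teleO {L : ℕ} [NeZero L] (σ : Site L → ℕ) (hσ : Function.Injective σ)
    (f : Finset (Site L) → ℝ) :
    ∑ v : Site L, (f (insert v (prev σ v)) - f (prev σ v)) = f Finset.univ - f ∅ := by
  have key : ∀ n : ℕ, ∑ v ∈ (Finset.univ : Finset (Site L)).filter (fun w => σ w < n),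
      (f (insert v (prev σ v)) - f (prev σ v)) =
      f ((Finset.univ : Finset (Site L)).filter fun w => σ w < n) - f ∅ := by
    intro n
    induction n with
    | zero => simp
    | succ n ih =>
      by_cases hn : ∃ v, σ v = n
      · obtain ⟨v, hv⟩ := hn
        have e1 : (Finset.univ : Finset (Site L)).filter (fun w => σ w < n + 1) =
            insert v ((Finset.univ : Finset (Site L)).filter fun w => σ w < n) := by
          ext w
          simp only [Finset.mem_filter, Finset.mem_univ, true_and, Finset.mem_insert]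
          constructor
          · intro h
            rcases Nat.lt_succ_iff_lt_or_eq.1 h with h | h
            · exact Or.inr h
            · exact Or.inl (hσ (h.trans hv.symm))
          · rintro (rfl | h) <;> omega
        have e2 : prev σ v = (Finset.univ : Finset (Site L)).filter fun w => σ w < n := by
          unfold prev
          rw [hv]
        rw [e1, Finset.sum_insert (by rw [← e2]; exact not_mem_prev v), ih, e2]
        ring
      · have e1 : (Finset.univ : Finset (Site L)).filter (fun w => σ w < n + 1) =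
            (Finset.univ : Finset (Site L)).filter fun w => σ w < n := by
          ext w
          simp only [Finset.mem_filter, Finset.mem_univ, true_and]
          constructor
          · intro h
            rcases Nat.lt_succ_iff_lt_or_eq.1 h with h | h
            · exact h
            · exact absurd ⟨w, h⟩ hn
          · intro h
            omega
        rw [e1, ih]
  obtain ⟨n, hn⟩ : ∃ n, ∀ v, σ v < n := by
    refine ⟨∑ v, (σ v + 1), fun v => ?_⟩
    have := Finset.single_le_sum (f := fun v => σ v + 1) (fun _ _ => Nat.zero_le _)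
      (Finset.mem_univ v)
    omega
  have e : (Finset.univ : Finset (Site L)).filter (fun w => σ w < n) = Finset.univ := by
    ext w
    simp [hn w]
  have := key n
  rwa [e] at this

/-- The interaction: `h u` acts on the box of side `2 b + 1` with corner `u`, and
`∑ u, term (h u) u` has free energy at most `0` and energy in `Ψ` at most the sum of the conditional
mutual informations, up to `2 δ L²`. -/
theorem intO (hSu : StmSup) (d L : ℕ) [NeZero L] (hd : 2 ≤ d) (b : ℕ) (hb : 2 * b + 1 ≤ L)
    (σ : Site L → ℕ) (hσ : Function.Injective σ)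
    (Ψ : (Site L → Fin d) → ℂ) (hΨ : normSq Ψ = 1) (δ : ℝ) (hδ : 0 < δ) (hδ2 : δ ≤ 1 / 2) :
    ∃ h : Site L → BoxOp d (2 * b + 1), (∀ u, (h u).IsHermitian) ∧
      (∀ u, ‖term (h u) u‖ ≤ 2 * ((2 * (b : ℝ) + 1) ^ 2 * Real.log d + Real.log (1 / δ))) ∧
      Real.log (NormedSpace.exp (-∑ u, term (h u) u)).trace.re ≤ 0 ∧
      (ip Ψ ((∑ u, term (h u) u) *ᵥ Ψ)).re ≤ ∑ v, cmiO σ Ψ b v + 2 * δ * (L : ℝ) ^ 2 := by
  have hLog : StmLogRange := Pool.Agent.U460.MK.t_logRange
  have hCe : StmCexp := cexp'
  have hCh : StmChain := chain'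
  have hEn : StmEnt2 := Pool.Agent.U194.MG.t_ent2
  have hPu : StmPure := Pool.Agent.U458.MG.t_pure
  obtain ⟨hpsd, htr, hu, he, htrace⟩ := hPu (Site L) d Ψ hΨ
  have hd0 : 0 < d := by omega
  obtain ⟨c1, c2, -, -, c5⟩ := hCe (Site L) d hd0
  have hX := hEn (Site L) d hd (dm Ψ) hpsd htr δ hδ hδ2
  choose X x1 x2 x3 x4 x5 using hX
  have hlogd : 0 ≤ Real.log d := Real.log_nonneg (by exact_mod_cast (by omega : 1 ≤ d))
  -- ranges
  have hran : ∀ A, cexp A (X A) = X A := by
    intro A
    refine hLog _ (cexp A) (c1 A) (X A) (x1 A) ?_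
    rw [x2 A, (c1 A).idem]
  have hone : ∀ A : Finset (Site L), cexp A (1 : TorOp d L) = 1 := by
    intro A
    have h1 : cexp ∅ (1 : TorOp d L) = 1 := by
      rw [c5]
      have h2 : (1 : TorOp d L).trace = (d : ℂ) ^ Fintype.card (Site L) := by
        rw [Matrix.trace_one, Fintype.card_fun, Fintype.card_fin]
        push_cast
        rfl
      have h3 : (d : ℂ) ^ Fintype.card (Site L) ≠ 0 := by
        apply pow_ne_zero
        exact_mod_cast hd0.ne'
      rw [h2, mul_inv_cancel₀ h3, one_smul]
    conv_lhs => rw [← h1, c2, Finset.inter_empty, h1]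
  -- the operators
  obtain ⟨P, hP⟩ : ∃ P : Site L → Finset (Site L), P = fun v => prev σ v ∩ near b v := ⟨_, rfl⟩
  obtain ⟨Q, hQ⟩ : ∃ Q : Site L → Finset (Site L), Q = fun v => insert v (P v) := ⟨_, rfl⟩
  have hPQ : ∀ v, P v ∩ Q v = P v := by
    intro v
    rw [hQ]
    exact Finset.inter_eq_left.2 (Finset.subset_insert _ _)
  have hPN : ∀ v, near b v ∩ P v = P v := by
    intro v
    rw [hP]
    exact Finset.inter_eq_right.2 Finset.inter_subset_right
  have hQN : ∀ v, near b v ∩ Q v = Q v := by
    intro v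
    rw [hQ]
    refine Finset.inter_eq_right.2 (Finset.insert_subset (mem_near b v) ?_)
    rw [hP]
    exact Finset.inter_subset_right
  have hvP : ∀ v, v ∉ P v := by
    intro v h
    rw [hP] at h
    exact not_mem_prev v (Finset.mem_inter.1 h).1
  have hcQ : ∀ v, (Q v).card = (P v).card + 1 := by
    intro v
    rw [hQ]
    exact Finset.card_insert_of_notMem (hvP v)
  have hcQ2 : ∀ v, ((Q v).card : ℝ) ≤ (2 * (b : ℝ) + 1) ^ 2 := by
    intro v
    have h1 : (Q v).card ≤ (2 * b + 1) ^ 2 := by
      refine (Finset.card_le_card ?_).trans (card_near b v)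
      rw [← hQN v]
      exact Finset.inter_subset_left
    exact_mod_cast h1
  obtain ⟨T, hT⟩ : ∃ T : Site L → TorOp d L, T = fun v => X (P v) - X (Q v) +
    ((Real.log d : ℝ) : ℂ) • (1 : TorOp d L) := ⟨_, rfl⟩
  have hherm1 : ∀ r : ℝ, ((r : ℂ) • (1 : TorOp d L)).IsHermitian := by
    intro r
    unfold Matrix.IsHermitian
    rw [Matrix.conjTranspose_smul, Matrix.conjTranspose_one]
    simp
  have hTh : ∀ v, (T v).IsHermitian := by
    intro v
    rw [hT]
    exact ((x1 _).sub (x1 _)).add (hherm1 _)
  have hTN : ∀ v, cexp (near b v) (T v) = T v := by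
    intro v
    have e : T v = X (P v) + ((-1 : ℂ) • X (Q v) + ((Real.log d : ℝ) : ℂ) • (1 : TorOp d L)) := by
      rw [hT]
      simp only [neg_smul, one_smul]
      abel
    have a1 : cexp (near b v) (X (P v)) = X (P v) := by
      conv_lhs => rw [← hran (P v), c2, hPN v, hran (P v)]
    have a2 : cexp (near b v) (X (Q v)) = X (Q v) := by
      conv_lhs => rw [← hran (Q v), c2, hQN v, hran (Q v)]
    rw [e, (c1 _).add, (c1 _).add, (c1 _).smul, (c1 _).smul, a1, a2, hone]
  -- the interaction
  have hex : ∀ u : Site L, ∃ h : BoxOp d (2 * b + 1), h.IsHermitian ∧ T (tr b u) = term h u := by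
    intro u
    refine hSu d (2 * b + 1) L hd0 hb u (T (tr b u)) (hTh _) ?_
    rw [← near_add b u]
    exact hTN (tr b u)
  choose h h1 h2 using hex
  have hsum : ∑ u, term (h u) u = ∑ v, T v := by
    rw [← Equiv.sum_comp (tr b) T]
    exact Finset.sum_congr rfl fun u _ => (h2 u).symm
  refine ⟨h, h1, ?_, ?_, ?_⟩
  · -- the norm
    intro u
    rw [← h2 u]
    obtain ⟨v, hv⟩ : ∃ v, v = tr b u := ⟨_, rfl⟩
    rw [← hv]
    have e : T v = (X (P v) + (((((Fintype.card (Site L) : ℝ) - (P v).card) * Real.log d : ℝ)) : ℂ) •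
        (1 : TorOp d L)) - (X (Q v) + (((((Fintype.card (Site L) : ℝ) - (Q v).card) * Real.log d : ℝ)) :
        ℂ) • (1 : TorOp d L)) := by
      rw [hT]
      have e1 : (((((Fintype.card (Site L) : ℝ) - (P v).card) * Real.log d : ℝ)) : ℂ) =
          (((((Fintype.card (Site L) : ℝ) - (Q v).card) * Real.log d : ℝ)) : ℂ) +
            ((Real.log d : ℝ) : ℂ) := by
        rw [hcQ v]
        push_cast
        ring
      rw [e1, add_smul]
      abel_nf
    have n1 := x3 (P v)
    have n2 := x3 (Q v)
    have n3 : ‖T v‖ ≤ (((P v).card : ℝ) * Real.log d + Real.log (1 / δ)) +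
        (((Q v).card : ℝ) * Real.log d + Real.log (1 / δ)) := by
      rw [e]
      exact (norm_sub_le _ _).trans (add_le_add n1 n2)
    have n4 : ((P v).card : ℝ) ≤ (2 * (b : ℝ) + 1) ^ 2 := by
      have := hcQ2 v
      rw [hcQ v] at this
      push_cast at this
      linarith
    have n5 := mul_le_mul_of_nonneg_right n4 hlogd
    have n6 := mul_le_mul_of_nonneg_right (hcQ2 v) hlogd
    linarith
  · -- the free energy
    rw [hsum]
    have hchain := hCh (Site L) d hd0 σ hσ (fun v => X (P v) - X (Q v)) Finset.univ 0 le_rfl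
      (fun v => (x1 _).sub (x1 _)) (fun v _ => ⟨P v, X (Q v), X (P v), ?_, x1 _, x1 _, ?_, ?_, rfl⟩)
      (fun v hv => absurd (Finset.mem_univ v) hv)
    · rw [mul_zero, zero_add] at hchain
      have e : ∑ v, T v = ∑ v, (X (P v) - X (Q v)) +
          (((Fintype.card (Site L) : ℝ) * Real.log d : ℝ) : ℂ) • (1 : TorOp d L) := by
        rw [hT, Finset.sum_add_distrib, Finset.sum_const, Finset.card_univ]
        congr 1
        rw [← Nat.cast_smul_eq_nsmul ℂ, smul_smul]
        congr 1
        push_cast
        rfl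
      rw [e, exp_add_smul, Matrix.trace_smul, smul_eq_mul, Complex.re_ofReal_mul]
      by_cases ht : (NormedSpace.exp (-∑ v, (X (P v) - X (Q v)))).trace.re = 0
      · rw [ht, mul_zero, Real.log_zero]
      · rw [Real.log_mul (Real.exp_pos _).ne' ht, Real.log_exp]
        linarith
    · intro w hw
      rw [hP] at hw
      exact mem_prev.1 (Finset.mem_inter.1 hw).1
    · have e : insert v (P v) = Q v := by rw [hQ]
      rw [e, x2, (c1 _).idem]
    · rw [x2, x2, c2, hPQ]
  · -- the energy
    rw [hsum, ← htrace, Finset.mul_sum, Matrix.trace_sum, Complex.re_sum]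
    have key : ∀ v, (dm Ψ * T v).trace.re ≤ (ent Ψ (Q v) - ent Ψ (P v)) + 2 * δ := by
      intro v
      have e : (dm Ψ * T v).trace.re = (dm Ψ * X (P v)).trace.re - (dm Ψ * X (Q v)).trace.re +
          Real.log d := by
        rw [hT]
        simp only
        rw [mul_add, mul_sub, Matrix.trace_add, Matrix.trace_sub, Matrix.mul_smul, mul_one,
          Matrix.trace_smul, htr, smul_eq_mul, mul_one, Complex.add_re, Complex.sub_re,
          Complex.ofReal_re]
      have y1 := x4 (P v)
      have y2 := x5 (Q v)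
      have e1 : ((Fintype.card (Site L) : ℝ) - (P v).card) * Real.log d =
          ((Fintype.card (Site L) : ℝ) - (Q v).card) * Real.log d + Real.log d := by
        rw [hcQ v]
        push_cast
        ring
      rw [e1] at y1
      rw [e]
      unfold ent
      linarith
    refine (Finset.sum_le_sum fun v _ => key v).trans ?_
    rw [Finset.sum_add_distrib, Finset.sum_const, Finset.card_univ, nsmul_eq_mul, card_site]
    have t := teleO σ hσ (ent Ψ)
    rw [hu, he, sub_zero] at t
    have e2 : ∑ v, cmiO σ Ψ b v = ∑ v, (ent Ψ (Q v) - ent Ψ (P v)) -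
        ∑ v : Site L, (ent Ψ (insert v (prev σ v)) - ent Ψ (prev σ v)) := by
      rw [← Finset.sum_sub_distrib]
      refine Finset.sum_congr rfl fun v _ => ?_
      unfold cmiO
      rw [hQ, hP]
      ring
    rw [e2, t]
    linarith

/-- the sum of the conditional mutual informations is a sum of conditional entropies of the
neighbourhoods -/
theorem sum_cmiO (d L : ℕ) [NeZero L] (b : ℕ) (σ : Site L → ℕ) (hσ : Function.Injective σ)
    (Ψ : (Site L → Fin d) → ℂ) (hΨ : normSq Ψ = 1) :
    ∑ v, cmiO σ Ψ b v =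
      ∑ v, (ent Ψ (insert v (prev σ v ∩ near b v)) - ent Ψ (prev σ v ∩ near b v)) := by
  obtain ⟨-, -, hu, he, -⟩ := Pool.Agent.U458.MG.t_pure (Site L) d Ψ hΨ
  have t := teleO σ hσ (ent Ψ)
  rw [hu, he, sub_zero] at t
  have e2 : ∑ v, cmiO σ Ψ b v =
      ∑ v, (ent Ψ (insert v (prev σ v ∩ near b v)) - ent Ψ (prev σ v ∩ near b v)) -
      ∑ v : Site L, (ent Ψ (insert v (prev σ v)) - ent Ψ (prev σ v)) := by
    rw [← Finset.sum_sub_distrib]
    refine Finset.sum_congr rfl fun v _ => ?_
    unfold cmiO
    ring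
  rw [e2, t, sub_zero]

end Pool.Agent.U753.MG
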