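import Pool.Agent.U753.MK.Stm
import Pool.Agent.TH235.PP.Spec

/-!
# Project MG: global PEPS approximation from the approximate Markov property. Definitions, statements
-/

set_option autoImplicit false

open scoped BigOperators Matrix ComplexOrder
open scoped Matrix.Norms.L2Operator

noncomputable section

namespace Pool.Agent.U753.MG

open Pool.Agent.TH235.PP (BoxOp TorOp Site term ham sh normSq ip)
open Pool.Agent.U753.MK

/-- The density matrix `|Ψ⟩⟨Ψ|`. -/
def dm {S : Type} (Ψ : S → ℂ) : Matrix S S ℂ := Matrix.vecMulVec Ψ (star Ψ)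

/-- The entropy of the region `A` in the state `Ψ`. -/
def ent {V : Type} [Fintype V] [DecidableEq V] {d : ℕ} (Ψ : (V → Fin d) → ℂ) (A : Finset V) : ℝ :=
  vnE (ptr A (dm Ψ))

/-- The sites of the torus before `v` in the lexicographic order. -/
def past {L : ℕ} [NeZero L] (v : Site L) : Finset (Site L) :=
  Finset.univ.filter fun w => w.1.val < v.1.val ∨ (w.1.val = v.1.val ∧ w.2.val < v.2.val)

/-- The sites of the torus at distance at most `b` from `v` in both directions. -/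
def near {L : ℕ} [NeZero L] (b : ℕ) (v : Site L) : Finset (Site L) :=
  (Finset.univ : Finset (Fin (2 * b + 1) × Fin (2 * b + 1))).image
    (sh (v.1 - (b : ZMod L), v.2 - (b : ZMod L)))

/-- The conditional mutual information `I(v : Q | P)`, `P` the sites before `v` at distance at most
`b`, `Q` the other sites before `v`. -/
def cmi {d L : ℕ} [NeZero L] (Ψ : (Site L → Fin d) → ℂ) (b : ℕ) (v : Site L) : ℝ :=
  ent Ψ (insert v (past v ∩ near b v)) + ent Ψ (past v) - ent Ψ (past v ∩ near b v) -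
    ent Ψ (insert v (past v))

/-- EN2. Logarithms of the regularised reduced states and entropies, sharper norm bound. -/
def StmEnt2 : Prop := ∀ (V : Type) [Fintype V] [DecidableEq V] (d : ℕ), 2 ≤ d →
  ∀ ρ : Matrix (V → Fin d) (V → Fin d) ℂ, ρ.PosSemidef → ρ.trace = 1 →
  ∀ δ : ℝ, 0 < δ → δ ≤ 1 / 2 → ∀ A : Finset V,
  ∃ X : Matrix (V → Fin d) (V → Fin d) ℂ, X.IsHermitian ∧
    NormedSpace.exp X = cexp A (((1 - δ : ℝ) : ℂ) • ρ +
      ((δ / (d : ℝ) ^ Fintype.card V : ℝ) : ℂ) • (1 : Matrix (V → Fin d) (V → Fin d) ℂ)) ∧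
    ‖X + (((((Fintype.card V : ℝ) - A.card) * Real.log d : ℝ)) : ℂ) •
      (1 : Matrix (V → Fin d) (V → Fin d) ℂ)‖ ≤ (A.card : ℝ) * Real.log d + Real.log (1 / δ) ∧
    vnE (ptr A ρ) + ((Fintype.card V : ℝ) - A.card) * Real.log d ≤ -(ρ * X).trace.re ∧
    -(ρ * X).trace.re ≤ vnE (ptr A ρ) + ((Fintype.card V : ℝ) - A.card) * Real.log d + 2 * δ

/-- SU. Operators on the sites of a box are translates of operators of the box. -/
def StmSup : Prop := ∀ (d R L : ℕ) [NeZero L], 0 < d → R ≤ L → ∀ (u : Site L) (X : TorOp d L),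
  X.IsHermitian → cexp ((Finset.univ : Finset (Fin R × Fin R)).image (sh u)) X = X →
  ∃ h : BoxOp d R, h.IsHermitian ∧ X = term h u

/-- PU. Pure states. -/
def StmPure : Prop := ∀ (V : Type) [Fintype V] [DecidableEq V] (d : ℕ) (Ψ : (V → Fin d) → ℂ),
  normSq Ψ = 1 → (dm Ψ).PosSemidef ∧ (dm Ψ).trace = 1 ∧ ent Ψ Finset.univ = 0 ∧ ent Ψ ∅ = 0 ∧
  ∀ X : Matrix (V → Fin d) (V → Fin d) ℂ, (dm Ψ * X).trace = ip Ψ (X *ᵥ Ψ)

/-- TL. Telescoping along the lexicographic order. -/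
def StmTele : Prop := ∀ (L : ℕ) [NeZero L] (f : Finset (Site L) → ℝ),
  ∑ v : Site L, (f (insert v (past v)) - f (past v)) = f Finset.univ - f ∅

/-- IN. The interaction: `h u` acts on the box of side `2 b + 1` with corner `u`, and
`∑ u, term (h u) u` has free energy at most `0` and energy in `Ψ` at most the sum of the conditional
mutual informations, up to `2 δ L²`. -/
def StmInt : Prop := ∀ (d L : ℕ) [NeZero L], 2 ≤ d → ∀ b : ℕ, 2 * b + 1 ≤ L →
  ∀ Ψ : (Site L → Fin d) → ℂ, normSq Ψ = 1 → ∀ δ : ℝ, 0 < δ → δ ≤ 1 / 2 →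
  ∃ h : Site L → BoxOp d (2 * b + 1), (∀ u, (h u).IsHermitian) ∧
    (∀ u, ‖term (h u) u‖ ≤ 2 * ((2 * (b : ℝ) + 1) ^ 2 * Real.log d + Real.log (1 / δ))) ∧
    Real.log (NormedSpace.exp (-∑ u, term (h u) u)).trace.re ≤ 0 ∧
    (ip Ψ ((∑ u, term (h u) u) *ᵥ Ψ)).re ≤ ∑ v, cmi Ψ b v + 2 * δ * (L : ℝ) ^ 2

end Pool.Agent.U753.MG
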